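import Mathlib
import Pool.Agent.Lib.MP_8d161d_ag.Mg.G011

/-!
Existence of a family of coefficients, logarithmic version, with a free threshold `t`.
-/

open Filter Topology MvPolynomial Module

namespace Pool.Agent.Lib.GGL.LD

open VG SM

theorem exists_family_t {K E : Type*} [Field K] [Field E] [Algebra K E] {q k t D C : ℕ}
    (hq : 1 ≤ q) (hk : 2 ≤ k)
    (hcount : ∀ r, 1 ≤ r → (2 * k + 1) * ((2 * k + 2) ^ D + 1) * Fintype.card
      {f : Fin q → Fin (2 * k * r + 1) // ∑ j, (f j : ℕ) ≤ t * q * r} ≤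
      (2 * k * r + 1) ^ q)
    {U₁ U₂ : Submodule K E} (h₁ : U₁.FG) (h₂ : U₂.FG) (h₁0 : U₁ ≠ ⊥) (h₂0 : U₂ ≠ ⊥)
    (hC : ∀ r, finrank K (U₁ ^ r * U₂ ^ r : Submodule K E) ≤ C * (r + 1) ^ D)
    {l b : Fin q → E} (hl : ∀ j, l j ∈ U₁) (hb : ∀ j, b j ∈ U₂) :
    ∃ r i : ℕ, 1 ≤ r ∧ i ≤ 2 * k ∧ ∃ c : (Fin q → Fin (2 * k * r + 1)) → E, c ≠ 0 ∧
      (∀ β, c β ≠ 0 → i * q * r ≤ ∑ j, (β j : ℕ) ∧ ∑ j, (β j : ℕ) < (i + 1) * q * r) ∧
      (∀ β, c β ∈ U₁ ^ (∑ j, (β j : ℕ) + q * r - i * q * r) *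
        U₂ ^ ((i + 2) * q * r - ∑ j, (β j : ℕ))) ∧
      ∀ f : Fin q → ℕ, ∑ j, f j ≤ t * q * r → leadL f l b c = 0 := by
  classical
  -- the choice of r
  obtain ⟨H, hH⟩ : ∃ H : ℕ → ℕ, ∀ r, H r =
    finrank K (U₁ ^ (q * r) * U₂ ^ (q * r) : Submodule K E) := ⟨_, fun r => rfl⟩
  have hH1 : ∀ r, 1 ≤ H r := fun r => by
    rw [hH]
    exact fam_finrank_pos h₁ h₂ h₁0 h₂0 _ _
  have hH2 : ∀ r, H r ≤ C * (q + 1) ^ D * (r + 1) ^ D := by
    intro r
    rw [hH]
    refine (hC _).trans ?_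
    have h3 : C * (q + 1) ^ D * (r + 1) ^ D = C * ((q + 1) * (r + 1)) ^ D := by
      rw [mul_pow, mul_assoc]
    rw [h3]
    apply Nat.mul_le_mul_left
    apply Nat.pow_le_pow_left
    nlinarith
  obtain ⟨r, hr1, hHr⟩ := scale hH1 hH2 (a := 2 * k + 2) (ρ := (2 * k + 2) ^ D + 1) (by omega)
    (Nat.lt_succ_self _) 1
  obtain ⟨i, hi, hwin⟩ := window_log q k r hq hr1
  refine ⟨r, i, hr1, hi, ?_⟩
  -- abbreviations
  let W := {β : Fin q → Fin (2 * k * r + 1) //
        i * q * r ≤ ∑ j, (β j : ℕ) ∧ ∑ j, (β j : ℕ) < (i + 1) * q * r}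
  let F := {f : Fin q → Fin (2 * k * r + 1) // ∑ j, (f j : ℕ) ≤ t * q * r}
  let S : W → Submodule K E := fun β =>
    U₁ ^ (∑ j, (β.1 j : ℕ) + q * r - i * q * r) *
        U₂ ^ ((i + 2) * q * r - ∑ j, (β.1 j : ℕ))
  let R : F → Submodule K E := fun f =>
    U₁ ^ (q * (2 * k * r) + q * r - i * q * r) * U₂ ^ ((i + 2) * q * r - ∑ j, (f.1 j : ℕ))
  have hSfin : ∀ β, Module.Finite K (S β) := fun β =>
    Module.Finite.iff_fg.mpr (fam_fg h₁ h₂ _ _)
  have hRfin : ∀ f, Module.Finite K (R f) := fun f =>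
    Module.Finite.iff_fg.mpr (fam_fg h₁ h₂ _ _)
  let ext : (∀ β : W, S β) → (Fin q → Fin (2 * k * r + 1)) → E := fun v β =>
    if h : i * q * r ≤ ∑ j, (β j : ℕ) ∧ ∑ j, (β j : ℕ) < (i + 1) * q * r then
      (v ⟨β, h⟩ : E) else 0
  have hext1 : ∀ v β, ext v β ≠ 0 →
      i * q * r ≤ ∑ j, (β j : ℕ) ∧ ∑ j, (β j : ℕ) < (i + 1) * q * r := by
    intro v β h
    by_contra hcon
    exact h (dif_neg hcon)
  have hext2 : ∀ v β, ext v β ∈ U₁ ^ (∑ j, (β j : ℕ) + q * r - i * q * r) *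
        U₂ ^ ((i + 2) * q * r - ∑ j, (β j : ℕ)) := by
    intro v β
    by_cases h : i * q * r ≤ ∑ j, (β j : ℕ) ∧ ∑ j, (β j : ℕ) < (i + 1) * q * r
    · have : ext v β = (v ⟨β, h⟩ : E) := dif_pos h
      rw [this]
      exact (v ⟨β, h⟩).2
    · have : ext v β = 0 := dif_neg h
      rw [this]
      exact Submodule.zero_mem _
  have hext3 : ∀ v (β : W), ext v β.1 = (v β : E) := by
    intro v β
    exact dif_pos β.2
  have hext_add : ∀ v w β, ext (v + w) β = ext v β + ext w β := by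
    intro v w β
    by_cases h : i * q * r ≤ ∑ j, (β j : ℕ) ∧ ∑ j, (β j : ℕ) < (i + 1) * q * r
    · have h1 : ∀ v : (∀ β : W, S β), ext v β = (v ⟨β, h⟩ : E) := fun v => dif_pos h
      rw [h1, h1, h1]
      rfl
    · have h1 : ∀ v : (∀ β : W, S β), ext v β = 0 := fun v => dif_neg h
      rw [h1, h1, h1, add_zero]
  have hext_smul : ∀ (k : K) v β, ext (k • v) β = k • ext v β := by
    intro k' v β
    by_cases h : i * q * r ≤ ∑ j, (β j : ℕ) ∧ ∑ j, (β j : ℕ) < (i + 1) * q * r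
    · have h1 : ∀ v : (∀ β : W, S β), ext v β = (v ⟨β, h⟩ : E) := fun v => dif_pos h
      rw [h1, h1]
      rfl
    · have h1 : ∀ v : (∀ β : W, S β), ext v β = 0 := fun v => dif_neg h
      rw [h1, h1, smul_zero]
  let Φ : (∀ β : W, S β) →ₗ[K] (∀ f : F, R f) :=
    { toFun := fun v f => ⟨leadL (fun j => (f.1 j : ℕ)) l b (ext v),
        a3_lead_mem hl hb (ext v) (hext1 v) (hext2 v) fun j => (f.1 j : ℕ)⟩
      map_add' := fun v w => by
        funext f
        apply Subtype.ext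
        change leadL _ _ _ _ = leadL _ _ _ _ + leadL _ _ _ _
        unfold leadL
        rw [← Finset.sum_add_distrib]
        refine Finset.sum_congr rfl fun γ _ => ?_
        rw [hext_add, add_mul]
      map_smul' := fun k' v => by
        funext f
        apply Subtype.ext
        change leadL _ _ _ _ = k' • leadL _ _ _ _
        unfold leadL
        rw [Finset.smul_sum]
        refine Finset.sum_congr rfl fun γ _ => ?_
        rw [hext_smul, smul_mul_assoc] }
  have hdim : finrank K (∀ f : F, R f) < finrank K (∀ β : W, S β) := by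
    rw [Module.finrank_pi_fintype, Module.finrank_pi_fintype]
    have b1 : ∑ f : F, finrank K (R f) ≤ Fintype.card F * H ((2 * k + 2) * r) := by
      have : ∀ f : F, finrank K (R f) ≤ H ((2 * k + 2) * r) := by
        intro f
        rw [hH]
        have hx : q * ((2 * k + 2) * r) = q * (2 * k * r) + 2 * (q * r) := by ring
        apply fam_finrank_mono h₁ h₂ h₁0 h₂0
        · rw [hx]
          omega
        · have h1 : (i + 2) * q * r ≤ q * ((2 * k + 2) * r) := by
            have : q * ((2 * k + 2) * r) = (2 * k + 2) * q * r := by ring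
            rw [this]
            apply Nat.mul_le_mul_right
            apply Nat.mul_le_mul_right
            omega
          omega
      refine (Finset.sum_le_sum fun f _ => this f).trans ?_
      simp
    have b2 : Fintype.card W * H r ≤ ∑ β : W, finrank K (S β) := by
      have : ∀ β : W, H r ≤ finrank K (S β) := by
        intro β
        rw [hH]
        obtain ⟨hw1, hw2⟩ := β.2
        apply fam_finrank_mono h₁ h₂ h₁0 h₂0
        · omega
        · have a1 : (i + 2) * q * r = (i + 1) * q * r + q * r := by ring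
          omega
      have h2 := Finset.sum_le_sum fun β (_ : β ∈ (Finset.univ : Finset W)) => this β
      simpa using h2
    have b4 : 0 < Fintype.card F := by
      have : Nonempty F := ⟨⟨fun _ => 0, by simp⟩⟩
      exact Fintype.card_pos
    have b5 : ((2 * k + 2) ^ D + 1) * Fintype.card F ≤ Fintype.card W := by
      have h3 := (hcount r hr1).trans hwin
      rw [mul_assoc] at h3
      exact Nat.le_of_mul_le_mul_left h3 (by omega)
    calc ∑ f : F, finrank K (R f) ≤ Fintype.card F * H ((2 * k + 2) * r) := b1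
      _ < Fintype.card F * (((2 * k + 2) ^ D + 1) * H r) := Nat.mul_lt_mul_of_pos_left hHr b4
      _ = (((2 * k + 2) ^ D + 1) * Fintype.card F) * H r := by ring
      _ ≤ Fintype.card W * H r := Nat.mul_le_mul_right _ b5
      _ ≤ _ := b2
  have hker : LinearMap.ker Φ ≠ ⊥ := LinearMap.ker_ne_bot_of_finrank_lt hdim
  obtain ⟨v, hv, hv0⟩ := Submodule.exists_mem_ne_zero_of_ne_bot hker
  rw [LinearMap.mem_ker] at hv
  refine ⟨ext v, ?_, hext1 v, hext2 v, ?_⟩
  · intro h0
    apply hv0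
    funext β
    apply Subtype.ext
    rw [← hext3 v β, h0]
    rfl
  · intro f hf
    by_cases hfj : ∀ j, f j < 2 * k * r + 1
    · have h2 := congrFun hv ⟨fun j => ⟨f j, hfj j⟩, hf⟩
      exact congrArg Subtype.val h2
    · push Not at hfj
      obtain ⟨j, hj⟩ := hfj
      unfold leadL
      apply Finset.sum_eq_zero
      intro γ _
      have hz : ∏ j, ((((γ j : ℕ).choose (f j) : ℕ) : E) * b j ^ ((γ j : ℕ) - f j) *
          l j ^ (2 * k * r - (γ j : ℕ))) = 0 := by
        apply Finset.prod_eq_zero (Finset.mem_univ j)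
        rw [Nat.choose_eq_zero_of_lt (lt_of_lt_of_le (γ j).isLt hj)]
        simp
      rw [hz, mul_zero]

end Pool.Agent.Lib.GGL.LD
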