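import Mathlib
import Pool.Agent.Lib.MP_8d161d_ag.Mg.G007
import Pool.Agent.Lib.MP_8d161d_ag.LD.A3

/-!
The algebraic certificate at the generic point, with a free threshold `t`.
-/

open Filter Topology MvPolynomial Module

namespace Pool.Agent.Lib.GGL.LD

open VG SM

theorem exists_certificate_t {E : Type*} [Field E] [Algebra ℂ E] {q D M k t : ℕ} (hD : 1 ≤ D)
    (hq : 1 ≤ q) (hk : 2 ≤ k) (ht : 3 ≤ t)
    (hcount : ∀ r, 1 ≤ r → (2 * k + 1) * ((2 * k + 2) ^ D + 1) * Fintype.card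
      {f : Fin q → Fin (2 * k * r + 1) // ∑ j, (f j : ℕ) ≤ t * q * r} ≤
      (2 * k * r + 1) ^ q)
    {p : Fin q → Fin (M + 1) → E}
    {y₀ Z₀ : Fin (M + 1) → E} (hw1 : y₀ ≠ 0) (hw2 : Z₀ ≠ 0)
    (htr : TrdegLE ℂ (Sum.elim y₀ Z₀) D) {F : Subalgebra ℂ E} (hF1 : ∀ i, y₀ i ∈ F)
    (hF2 : ∀ i, Z₀ i ∈ F)
    (hp : AlgebraicIndependent F (fun x : Fin q × Fin (M + 1) => p x.1 x.2)) :
    ∃ (r A B τ : ℕ) (c : (Fin q → Fin (2 * k * r + 1)) →
      MvPolynomial ((Fin q × Fin (M + 1)) ⊕ (Fin (M + 1) ⊕ Fin (M + 1))) ℂ) (g : Fin q → ℕ),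
      1 ≤ r ∧ q * (2 * k * r) = A + B + τ ∧ ∑ j, g j = τ + 3 * (q * r) ∧
      t * (q * r) < ∑ j, g j ∧ (∀ j, g j ≤ 2 * k * r) ∧
      (∀ y Z : Fin (M + 1) → ℂ, (∀ G : MvPolynomial (Fin (M + 1) ⊕ Fin (M + 1)) ℂ,
        aeval (Sum.elim y₀ Z₀) G = 0 → aeval (Sum.elim y Z) G = 0) →
        ∀ p' : Fin q → Fin (M + 1) → ℂ, GoodL q g (fun j => p' j ⬝ᵥ y) (fun j => p' j ⬝ᵥ Z)
          (fun γ => eval (pt p' y Z) (c γ))) ∧
      (∀ (p' : Fin q → Fin (M + 1) → ℂ) (y Z : Fin (M + 1) → ℂ) (a b : ℂ),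
        leadL g (fun j => p' j ⬝ᵥ (a • y)) (fun j => p' j ⬝ᵥ (b • Z))
          (fun γ => eval (pt p' (a • y) (b • Z)) (c γ)) = a ^ A * b ^ B *
        leadL g (fun j => p' j ⬝ᵥ y) (fun j => p' j ⬝ᵥ Z)
          (fun γ => eval (pt p' y Z) (c γ))) ∧
      leadL g (fun j => p j ⬝ᵥ y₀) (fun j => p j ⬝ᵥ Z₀)
        (fun γ => aeval (pt p y₀ Z₀) (c γ)) ≠ 0 := by
  classical
  obtain ⟨p₀, hp₀⟩ : ∃ p₀ : Fin q × Fin (M + 1) → E, p₀ = fun x => p x.1 x.2 := ⟨_, rfl⟩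
  rw [← hp₀] at hp
  have htr1 := htr.of_subfield (IntermediateField.adjoin ℂ (Set.range p₀))
  obtain ⟨C₁, hC₁⟩ := growth_bound htr1
  obtain ⟨U₁, hU₁⟩ : ∃ U₁ : Submodule (IntermediateField.adjoin ℂ (Set.range p₀)) E,
    U₁ = Submodule.span _ (Set.range y₀) := ⟨_, rfl⟩
  obtain ⟨U₂, hU₂⟩ : ∃ U₂ : Submodule (IntermediateField.adjoin ℂ (Set.range p₀)) E,
    U₂ = Submodule.span _ (Set.range Z₀) := ⟨_, rfl⟩
  have hne : ∀ {v : Fin (M + 1) → E}, v ≠ 0 → ∀ {U : Submodule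
      (IntermediateField.adjoin ℂ (Set.range p₀)) E}, U = Submodule.span _ (Set.range v) →
      U ≠ ⊥ := by
    intro v hv U hU h0
    apply hv
    funext i
    rw [hU, Submodule.span_eq_bot] at h0
    exact h0 _ ⟨i, rfl⟩
  have hmem : ∀ {v : Fin (M + 1) → E} {U : Submodule
      (IntermediateField.adjoin ℂ (Set.range p₀)) E}, U = Submodule.span _ (Set.range v) →
      ∀ j, p j ⬝ᵥ v ∈ U := by
    intro v U hU j
    rw [hU, dotProduct]
    refine Submodule.sum_mem _ fun i _ => ?_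
    have h1 : p j i ∈ IntermediateField.adjoin ℂ (Set.range p₀) :=
      IntermediateField.subset_adjoin ℂ _ ⟨(j, i), by rw [hp₀]⟩
    exact Submodule.smul_mem _ (⟨p j i, h1⟩ : IntermediateField.adjoin ℂ (Set.range p₀))
      (Submodule.subset_span ⟨i, rfl⟩)
  obtain ⟨r, i₀, hr, hi₀, c, hc0, hcs, hcm, hcv⟩ :=
    exists_family_t (U₁ := U₁) (U₂ := U₂) hq (by omega : 2 ≤ k) hcount
    (by rw [hU₁]; exact Submodule.fg_span (Set.finite_range _))
    (by rw [hU₂]; exact Submodule.fg_span (Set.finite_range _))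
    (hne hw1 hU₁) (hne hw2 hU₂) (by rw [hU₁, hU₂]; exact hC₁)
    (hmem hU₁) (hmem hU₂)
  rw [hU₁, hU₂] at hcm
  obtain ⟨d, Q, hd, hQ⟩ := clear (K := ℂ) p₀ y₀ Z₀ _ _ c hcm
  obtain ⟨Q', hQ'⟩ : ∃ Q' : (Fin q → Fin (2 * k * r + 1)) →
      MvPolynomial ((Fin q × Fin (M + 1)) ⊕ (Fin (M + 1) ⊕ Fin (M + 1))) ℂ,
      Q' = fun γ => if c γ = 0 then 0 else Q γ := ⟨_, rfl⟩
  have hQ'w : ∀ γ, aeval (pt p y₀ Z₀) (Q' γ) = d * c γ := by
    intro γ
    rw [hQ']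
    by_cases h : c γ = 0
    · simp [h]
    · simp only [h, if_false]
      have h1 := (hQ γ).2
      rw [hp₀] at h1
      exact h1
  have hl : ∀ j, p j ⬝ᵥ y₀ ≠ 0 := by
    intro j
    have h1 := dot_ne_zero hp hF1 hw1 j
    rw [hp₀] at h1
    exact h1
  have hdc : (fun γ => d * c γ) ≠ 0 := by
    obtain ⟨γ, hγ⟩ := Function.ne_iff.mp hc0
    exact Function.ne_iff.mpr ⟨γ, mul_ne_zero hd hγ⟩
  obtain ⟨g, hg1, hg2⟩ := exists_goodL hl (fun j => p j ⬝ᵥ Z₀) hdc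
  -- the size of the exponent
  have hgT : t * q * r < ∑ j, g j := by
    by_contra hcon
    push Not at hcon
    apply hg2
    rw [leadL_smul, hcv g hcon, mul_zero]
  obtain ⟨β, hβ1, hβ2⟩ : ∃ β, c β ≠ 0 ∧ ∀ j, g j ≤ (β j : ℕ) := by
    rw [leadL_smul] at hg2
    have h1 : leadL g (fun j => p j ⬝ᵥ y₀) (fun j => p j ⬝ᵥ Z₀) c ≠ 0 :=
      right_ne_zero_of_mul hg2
    obtain ⟨β, -, hβ⟩ := Finset.exists_ne_zero_of_sum_ne_zero h1
    refine ⟨β, left_ne_zero_of_mul hβ, fun j => ?_⟩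
    by_contra hcon
    push Not at hcon
    apply right_ne_zero_of_mul hβ
    apply Finset.prod_eq_zero (Finset.mem_univ j)
    rw [Nat.choose_eq_zero_of_lt hcon]
    simp
  have hgβ : ∑ j, g j < (i₀ + 1) * q * r :=
    lt_of_le_of_lt (Finset.sum_le_sum fun j _ => hβ2 j) (hcs β hβ1).2
  obtain ⟨qr, hqr⟩ : ∃ qr, qr = q * r := ⟨_, rfl⟩
  have e1 : q * (2 * k * r) = 2 * k * qr := by rw [hqr]; ring
  have e2 : i₀ * q * r = i₀ * qr := by rw [hqr, mul_assoc]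
  have e3 : (i₀ + 1) * q * r = i₀ * qr + qr := by rw [hqr]; ring
  have e4 : (i₀ + 2) * q * r = i₀ * qr + 2 * qr := by rw [hqr]; ring
  have e5 : t * q * r = t * qr := by rw [hqr, mul_assoc]
  have e6 : i₀ * qr ≤ 2 * k * qr := Nat.mul_le_mul_right _ hi₀
  have e7 : 3 * qr ≤ t * qr := Nat.mul_le_mul_right _ (by omega)
  rw [e2, e4, ← hqr] at hQ
  rw [e2, e3] at hcs
  rw [e3] at hgβ
  rw [e5] at hgT
  clear hcount hcv hcm
  have e8 : i₀ * qr ≤ q * (2 * k * r) := by rw [e1]; exact e6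
  refine ⟨r, q * (2 * k * r) + qr - i₀ * qr, i₀ * qr + 2 * qr - ∑ j, g j,
    ∑ j, g j - 3 * qr, Q', g, hr, ?_, ?_, ?_, ?_, ?_, ?_, ?_⟩
  · omega
  · rw [← hqr]
    omega
  · rw [← hqr]
    exact hgT
  · exact fun j => (hβ2 j).trans (Nat.lt_succ_iff.1 (β j).2)
  · intro y Z hyZ p'
    have h1 : ∀ P : MvPolynomial ((Fin q × Fin (M + 1)) ⊕ (Fin (M + 1) ⊕ Fin (M + 1))) ℂ,
        aeval (pt p y₀ Z₀) P = 0 → aeval (pt p' y Z) P = 0 := by
      intro P hP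
      refine VG.transfer' (F := F) (p := p₀) (w := Sum.elim y₀ Z₀) ?_ hp ?_ hyZ _
      · rintro (i | i)
        · exact hF1 i
        · exact hF2 i
      · rw [hp₀]
        exact hP
    exact a4_goodL_transfer h1 hQ'w hg1
  · intro p' y Z a b
    rw [leadL, leadL, Finset.mul_sum]
    refine Finset.sum_congr rfl fun γ _ => ?_
    by_cases hcγ : c γ = 0
    · rw [hQ']
      simp [hcγ]
    · by_cases hle : ∀ j, g j ≤ (γ j : ℕ)
      · have h1 := (hQ γ).1.aeval (fun x : Fin q × Fin (M + 1) => p' x.1 x.2) y Z a b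
        have h2 : Q' γ = Q γ := by rw [hQ']; simp only [hcγ, if_false]
        have h3 : ∀ y Z : Fin (M + 1) → ℂ, eval (pt p' y Z) (Q' γ) =
            aeval (Sum.elim (fun x : Fin q × Fin (M + 1) => p' x.1 x.2) (Sum.elim y Z)) (Q γ) := by
          intro y Z
          rw [h2, aeval_eq_eval']
          rfl
        rw [h3, h3, h1]
        have h4 : ∀ j, ((((γ j : ℕ).choose (g j) : ℕ) : ℂ) * (p' j ⬝ᵥ (b • Z)) ^ ((γ j : ℕ) - g j) *
            (p' j ⬝ᵥ (a • y)) ^ (2 * k * r - (γ j : ℕ))) =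
            (b ^ ((γ j : ℕ) - g j) * a ^ (2 * k * r - (γ j : ℕ))) *
            ((((γ j : ℕ).choose (g j) : ℕ) : ℂ) * (p' j ⬝ᵥ Z) ^ ((γ j : ℕ) - g j) *
            (p' j ⬝ᵥ y) ^ (2 * k * r - (γ j : ℕ))) := by
          intro j
          rw [dotProduct_smul, dotProduct_smul, smul_eq_mul, smul_eq_mul, mul_pow, mul_pow]
          ring
        rw [Finset.prod_congr rfl fun j _ => h4 j, Finset.prod_mul_distrib,
          Finset.prod_mul_distrib, Finset.prod_pow_eq_pow_sum, Finset.prod_pow_eq_pow_sum]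
        have h5 : ∑ j, ((γ j : ℕ) - g j) + ∑ j, g j = ∑ j, (γ j : ℕ) := by
          rw [← Finset.sum_add_distrib]
          exact Finset.sum_congr rfl fun j _ => Nat.sub_add_cancel (hle j)
        have h6 : ∑ j, (2 * k * r - (γ j : ℕ)) + ∑ j, (γ j : ℕ) = q * (2 * k * r) := by
          rw [← Finset.sum_add_distrib]
          calc _ = ∑ _j : Fin q, 2 * k * r := Finset.sum_congr rfl fun j _ =>
                Nat.sub_add_cancel (Nat.lt_succ_iff.1 (γ j).2)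
            _ = q * (2 * k * r) := by simp
        have h7 := hcs γ hcγ
        have h9 : ∑ j, (γ j : ℕ) + qr - i₀ * qr +
            ∑ j, (2 * k * r - (γ j : ℕ)) = q * (2 * k * r) + qr - i₀ * qr := by
          omega
        have h10 : i₀ * qr + 2 * qr - ∑ j, (γ j : ℕ) + ∑ j, ((γ j : ℕ) - g j) =
            i₀ * qr + 2 * qr - ∑ j, g j := by
          omega
        rw [← h9, ← h10, pow_add, pow_add]
        ring
      · push Not at hle
        obtain ⟨j, hj⟩ := hle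
        rw [Finset.prod_eq_zero (Finset.mem_univ j), Finset.prod_eq_zero (Finset.mem_univ j)]
        · ring
        · rw [Nat.choose_eq_zero_of_lt hj]; simp
        · rw [Nat.choose_eq_zero_of_lt hj]; simp
  · have h1 : (fun γ => aeval (pt p y₀ Z₀) (Q' γ)) = fun γ => d * c γ := funext hQ'w
    rw [h1]
    exact hg2

end Pool.Agent.Lib.GGL.LD
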