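import Mathlib
import Pool.Agent.Lib.MP_8d161d_ag.Mg.G008
import Pool.Agent.Lib.MP_8d161d_ag.LD.A4

/-!
The polynomial whose non-vanishing makes a block of hyperplanes good, with a free threshold `t`.
-/

open Filter Topology MvPolynomial Module

namespace Pool.Agent.Lib.GGL.LD

open VG SM

theorem exists_lambda_t {n M k t : ℕ} (hk : 2 ≤ k) (ht : 3 ≤ t)
    (𝔞 : Ideal (MvPolynomial (Fin (M + 1) ⊕ Fin (M + 1)) ℂ)) [𝔞.IsPrime]
    (htr : ∀ (L : Type) [Field L] [Algebra ℂ L] (y Z : Fin (M + 1) → L),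
      (∀ G ∈ 𝔞, aeval (Sum.elim y Z) G = 0) → TrdegLE ℂ y (n + 1))
    (hdiff : ∀ f : MvPolynomial (Fin (M + 1)) ℂ, rename Sum.inl f ∈ 𝔞 → diffP f ∈ 𝔞)
    {a₀ b₀ : Fin (M + 1)} (hab : minorP ℂ a₀ b₀ ∉ 𝔞) {q : ℕ} (hq1 : 1 ≤ q)
    (hcount : ∀ r, 1 ≤ r → (2 * k + 1) * ((2 * k + 2) ^ (2 * (n + 1)) + 1) * Fintype.card
      {f : Fin q → Fin (2 * k * r + 1) // ∑ j, (f j : ℕ) ≤ t * q * r} ≤
      (2 * k * r + 1) ^ q) :
    (∀ (L : Type) [Field L] [Algebra ℂ L] (w : Fin (M + 1) ⊕ Fin (M + 1) → L),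
      (∀ G ∈ 𝔞, aeval w G = 0) → TrdegLE ℂ w (2 * (n + 1))) ∧
    ∃ (r A B τ : ℕ) (c : (Fin q → Fin (2 * k * r + 1)) →
      MvPolynomial ((Fin q × Fin (M + 1)) ⊕ (Fin (M + 1) ⊕ Fin (M + 1))) ℂ) (g : Fin q → ℕ)
      (Λ : MvPolynomial ((Fin q × Fin (M + 1)) ⊕ (Fin (M + 1) ⊕ Fin (M + 1))) ℂ),
      1 ≤ r ∧ q * (2 * k * r) = A + B + τ ∧ ∑ j, g j = τ + 3 * (q * r) ∧
      t * (q * r) < ∑ j, g j ∧ (∀ j, g j ≤ 2 * k * r) ∧
      (∀ y Z : Fin (M + 1) → ℂ, (∀ G ∈ 𝔞, eval (Sum.elim y Z) G = 0) →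
        ∀ p' : Fin q → Fin (M + 1) → ℂ, GoodL q g (fun j => p' j ⬝ᵥ y) (fun j => p' j ⬝ᵥ Z)
          (fun γ => eval (pt p' y Z) (c γ))) ∧
      (∀ (p' : Fin q → Fin (M + 1) → ℂ) (y Z : Fin (M + 1) → ℂ) (a b : ℂ),
        leadL g (fun j => p' j ⬝ᵥ (a • y)) (fun j => p' j ⬝ᵥ (b • Z))
          (fun γ => eval (pt p' (a • y) (b • Z)) (c γ)) = a ^ A * b ^ B *
        leadL g (fun j => p' j ⬝ᵥ y) (fun j => p' j ⬝ᵥ Z)
          (fun γ => eval (pt p' y Z) (c γ))) ∧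
      (∃ m, coeff m (sumAlgEquiv ℂ _ _ Λ) ∉ 𝔞) ∧
      ∀ (p' : Fin q → Fin (M + 1) → ℂ) (y Z : Fin (M + 1) → ℂ), eval (pt p' y Z) Λ ≠ 0 →
        leadL g (fun j => p' j ⬝ᵥ y) (fun j => p' j ⬝ᵥ Z)
          (fun γ => eval (pt p' y Z) (c γ)) ≠ 0 ∧
        (∀ j, p' j ⬝ᵥ y ≠ 0) ∧ y a₀ * Z b₀ - y b₀ * Z a₀ ≠ 0 ∧
        (∀ i j, X (Sum.inl i) ∈ 𝔞 ∨ (p' j ⬝ᵥ Z) * y i - Z i * (p' j ⬝ᵥ y) ≠ 0) := by
  classical
  obtain ⟨E, _, _, _, y₀, Z₀, p, F, hrel, hF1, hF2, hp⟩ := exists_generic_point (q := q) 𝔞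
  have hab' : y₀ a₀ * Z₀ b₀ - y₀ b₀ * Z₀ a₀ ≠ 0 := by
    intro h0
    apply hab
    rw [← hrel, aeval_minorP']
    exact h0
  have hw1 : y₀ ≠ 0 := by
    intro h
    apply hab'
    simp [h]
  have hw2 : Z₀ ≠ 0 := by
    intro h
    apply hab'
    simp [h]
  have htr1 : TrdegLE ℂ y₀ (n + 1) := htr E y₀ Z₀ (fun G hG => (hrel G).mpr hG)
  have hrel2 : ∀ G : MvPolynomial (Fin (M + 1)) ℂ, aeval y₀ G = 0 → t14D y₀ Z₀ G = 0 := by
    intro G hG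
    rw [← aeval_diffP]
    apply (hrel _).mpr
    apply hdiff
    apply (hrel _).mp
    rw [aeval_rename, Sum.elim_comp_inl]
    exact hG
  have htr2 : TrdegLE ℂ (Sum.elim y₀ Z₀) (2 * (n + 1)) := trdeg_of_rel hrel2 htr1
  refine ⟨?_, ?_⟩
  · intro L _ _ w hw
    exact htr2.specialize' (fun G hG => hw G ((hrel G).mp hG))
  obtain ⟨r, A, B, τ, c, g, hr, hdeg, hsum, hlt, hgle, hgood, hhom, hne⟩ :=
    exists_certificate_t (by omega) hq1 hk ht hcount hw1 hw2 htr2 hF1 hF2 hp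
  obtain ⟨S, hS⟩ : ∃ S : Finset (Fin (M + 1)), S = Finset.univ.filter fun i =>
    (X (Sum.inl i) : MvPolynomial (Fin (M + 1) ⊕ Fin (M + 1)) ℂ) ∉ 𝔞 := ⟨_, rfl⟩
  have hSne : ∀ i ∈ S, y₀ i ≠ 0 := by
    intro i hi h0
    rw [hS, Finset.mem_filter] at hi
    apply hi.2
    rw [← hrel, aeval_X, Sum.elim_inl]
    exact h0
  have haux : aeval (pt p y₀ Z₀) (auxP S) ≠ 0 := by
    rw [aeval_auxP]
    refine mul_ne_zero (mul_ne_zero ?_ ?_) ?_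
    · exact Finset.prod_ne_zero_iff.mpr fun j _ => dot_ne_zero hp hF1 hw1 j
    · refine Finset.prod_ne_zero_iff.mpr fun x hx => ?_
      exact wronskian_ne' hp hF1 hF2 hab' (Finset.mem_offDiag.mp hx).2.2
    · refine Finset.prod_ne_zero_iff.mpr fun i hi => ?_
      refine Finset.prod_ne_zero_iff.mpr fun j _ => ?_
      exact sep_minor' hp hF1 hF2 hab' j i (hSne i hi)
  obtain ⟨Λ, hΛ⟩ : ∃ Λ, Λ = leadL g (lR ℂ) (bR ℂ) c * auxP S *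
    rename Sum.inr (minorP ℂ a₀ b₀) := ⟨_, rfl⟩
  refine ⟨r, A, B, τ, c, g, Λ, hr, hdeg, hsum, hlt, hgle, ?_, hhom, ?_, ?_⟩
  · intro y Z hyZ p'
    exact hgood y Z (fun G hG => hyZ G ((hrel G).mp hG)) p'
  · by_contra hcon
    push Not at hcon
    have h1 : aeval (pt p y₀ Z₀) Λ ≠ 0 := by
      rw [hΛ, map_mul, map_mul, aeval_leadL, aeval_rename_minorP]
      exact mul_ne_zero (mul_ne_zero hne haux) hab'
    apply h1
    rw [pt, VG.aeval_sum]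
    have h2 : MvPolynomial.map (aeval (Sum.elim y₀ Z₀) :
        MvPolynomial (Fin (M + 1) ⊕ Fin (M + 1)) ℂ →ₐ[ℂ] E).toRingHom
        (sumAlgEquiv ℂ (Fin q × Fin (M + 1)) (Fin (M + 1) ⊕ Fin (M + 1)) Λ) = 0 := by
      ext m
      rw [coeff_map, coeff_zero]
      exact (hrel _).mpr (hcon m)
    rw [h2, map_zero]
  · intro p' y Z hne'
    rw [hΛ, ← aeval_eq_eval', map_mul, map_mul, aeval_leadL, aeval_auxP,
      aeval_rename_minorP] at hne'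
    have h0 := left_ne_zero_of_mul hne'
    have h0' := right_ne_zero_of_mul hne'
    have h1 := left_ne_zero_of_mul h0
    have h2 := right_ne_zero_of_mul h0
    have h3 := right_ne_zero_of_mul h2
    have h5 := left_ne_zero_of_mul (left_ne_zero_of_mul h2)
    refine ⟨h1, ?_, h0', ?_⟩
    · intro j
      exact Finset.prod_ne_zero_iff.mp h5 j (Finset.mem_univ j)
    · intro i j
      by_cases hi : (X (Sum.inl i) : MvPolynomial (Fin (M + 1) ⊕ Fin (M + 1)) ℂ) ∈ 𝔞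
      · exact Or.inl hi
      · right
        have hiS : i ∈ S := by
          rw [hS, Finset.mem_filter]
          exact ⟨Finset.mem_univ i, hi⟩
        exact Finset.prod_ne_zero_iff.mp (Finset.prod_ne_zero_iff.mp h3 i hiS) j
          (Finset.mem_univ j)

end Pool.Agent.Lib.GGL.LD
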