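import Mathlib
import Pool.Agent.Lib.MP_8d161d_ag.Mg.G040
import Pool.Agent.Lib.MP_8d161d_ag.Mg.G041
import Pool.Agent.Lib.MP_8d161d_ag.SM.C5

/-!
Curves for which the points over the hypersurfaces are zeros of a small section.
-/

open Filter Topology MvPolynomial Module MeasureTheory

namespace Pool.Agent.Lib.GGL.LD

open SM CV

private theorem g1_average_le {m b : ℕ} {Y : ℂ → Fin (m + 1) → ℂ} (hY : Differentiable ℂ Y)
    (h0 : ∀ z, Y z ≠ 0) {g : ℂ → ℂ} (hg : Differentiable ℂ g) (hg0 : ∃ z, g z ≠ 0)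
    {A : ℝ} (hA : ∀ z, ‖g z‖ ≤ A * ‖Y z‖ ^ b) {r : ℝ} (hr : 1 ≤ r) :
    Real.circleAverage (fun z => Real.log ‖g z‖) 0 r ≤ b * height Y r + Real.log A := by
  have hApos : 0 < A := by
    obtain ⟨z, hz⟩ := hg0
    have h1 : 0 < A * ‖Y z‖ ^ b := (norm_pos_iff.2 hz).trans_le (hA z)
    exact pos_of_mul_pos_left h1 (pow_nonneg (norm_nonneg _) _)
  have hr0 : 0 < r := zero_lt_one.trans_le hr
  have hcont : Continuous fun z : ℂ => Real.log ‖Y z‖ :=
    Continuous.log hY.continuous.norm fun z => (norm_pos_iff.2 (h0 _)).ne'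
  have hint1 : CircleIntegrable (fun z : ℂ => (b : ℝ) • Real.log ‖Y z‖) 0 r :=
    (hcont.const_smul (b : ℝ)).continuousOn.circleIntegrable hr0.le
  have hint2 : CircleIntegrable (fun _ : ℂ => Real.log A) 0 r :=
    continuousOn_const.circleIntegrable hr0.le
  have hint3 : CircleIntegrable (fun z => Real.log ‖g z‖) 0 r :=
    MeromorphicOn.circleIntegrable_log_norm fun z _ => (hg.analyticAt z).meromorphicAt
  have hanalytic : AnalyticOnNhd ℂ g Set.univ := fun z _ => hg.analyticAt z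
  have hS : ∀ z₁, ∀ᶠ z in 𝓝[≠] z₁, z ∉ {z | g z = 0} := by
    intro z₁
    rcases (hg.analyticAt z₁).eventually_eq_zero_or_eventually_ne_zero with h5 | h5
    · exfalso
      obtain ⟨z, hz⟩ := hg0
      apply hz
      have := hanalytic.eqOn_zero_of_preconnected_of_eventuallyEq_zero isPreconnected_univ
        (Set.mem_univ z₁) h5
      exact this (Set.mem_univ z)
    · exact h5
  have h6 := SM.circleAverage_mono_ae hr0 hint3 (hint1.add hint2) hS (fun z _ hz => by
    have hHz : g z ≠ 0 := hz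
    have hYz : 0 < ‖Y z‖ := norm_pos_iff.2 (h0 _)
    calc Real.log ‖g z‖ ≤ Real.log (A * ‖Y z‖ ^ b) :=
          Real.log_le_log (norm_pos_iff.2 hHz) (hA z)
      _ = (b : ℝ) • Real.log ‖Y z‖ + Real.log A := by
          rw [Real.log_mul hApos.ne' (pow_pos hYz _).ne', Real.log_pow, smul_eq_mul, add_comm])
  rw [Real.circleAverage_add hint1 hint2, Real.circleAverage_const,
    Real.circleAverage_fun_smul] at h6
  exact h6

/-- If `g` is bounded by `‖Y‖ ^ b` and vanishes at every point with at least `s` times the number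
of the hypersurfaces that are met, then `s` times the sum of the truncated counting functions is at
most `b` times the characteristic. -/
theorem section_count {m d N b s : ℕ} {h : Fin N → Mon m d → ℂ} {S : Finset (Fin N)}
    {Y : ℂ → Fin (m + 1) → ℂ} (hY : Differentiable ℂ Y) (h0 : ∀ z, Y z ≠ 0)
    (hne : ∀ j ∈ S, ∃ z, form (h j) (Y z) ≠ 0)
    {g : ℂ → ℂ} (hg : Differentiable ℂ g) (hg0 : ∃ z, g z ≠ 0)
    {A : ℝ} (hA : ∀ z, ‖g z‖ ≤ A * ‖Y z‖ ^ b)
    (hord : ∀ z, s * {j | j ∈ S ∧ form (h j) (Y z) = 0}.ncard ≤ analyticOrderNatAt g z) :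
    ∃ C : ℝ, ∀ r : ℝ, 1 ≤ r →
      s * ∑ j ∈ S, count1 (fun z => form (h j) (Y z)) r ≤ b * height Y r + C := by
  classical
  have hH : ∀ j, Differentiable ℂ fun z => form (h j) (Y z) := fun j =>
    form_differentiable hY (h j)
  obtain ⟨c, hc⟩ : ∃ c : ℝ, c = Real.log ‖meromorphicTrailingCoeffAt g 0‖ := ⟨_, rfl⟩
  refine ⟨Real.log A - c, fun r hr => ?_⟩
  obtain ⟨T, hT⟩ : ∃ T : Finset ℂ, T = (zeros_finite hg hg0 r).toFinset := ⟨_, rfl⟩
  have hTm : ∀ u, u ∈ T ↔ g u = 0 ∧ ‖u‖ ≤ r := by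
    intro u
    rw [hT, Set.Finite.mem_toFinset]
    constructor
    · rintro ⟨h1, h2⟩
      exact ⟨h1, mem_closedBall_zero_iff.1 h2⟩
    · rintro ⟨h1, h2⟩
      exact ⟨h1, mem_closedBall_zero_iff.2 h2⟩
  obtain ⟨Z, hZ⟩ : ∃ Z : Finset ℂ, Z = T ∪ S.attach.biUnion fun j =>
    (zeros_finite (hH j.1) (hne j.1 j.2) r).toFinset := ⟨_, rfl⟩
  have hZr : ∀ u ∈ Z, ‖u‖ ≤ r := by
    intro u hu
    rw [hZ, Finset.mem_union, Finset.mem_biUnion] at hu
    rcases hu with hu | ⟨j, -, hj⟩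
    · exact ((hTm u).1 hu).2
    · rw [Set.Finite.mem_toFinset] at hj
      exact mem_closedBall_zero_iff.1 hj.2
  have hcount : ∀ j ∈ S, count1 (fun z => form (h j) (Y z)) r =
      ∑ u ∈ Z, if form (h j) (Y u) = 0 then c3a_L r u else 0 := by
    intro j hj
    rw [c3a_count1 (hH j) (hne j hj) hr, ← Finset.sum_filter]
    refine Finset.sum_congr ?_ fun _ _ => rfl
    ext u
    rw [Finset.mem_filter, Set.Finite.mem_toFinset]
    constructor
    · intro hu
      refine ⟨?_, hu.1⟩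
      rw [hZ, Finset.mem_union, Finset.mem_biUnion]
      refine Or.inr ⟨⟨j, hj⟩, Finset.mem_attach _ _, ?_⟩
      rw [Set.Finite.mem_toFinset]
      exact hu
    · rintro ⟨h1, h2⟩
      exact ⟨h2, mem_closedBall_zero_iff.2 (hZr u h1)⟩
  have havg : Real.circleAverage (fun z => Real.log ‖g z‖) 0 r =
      ∑ u ∈ Z, (analyticOrderNatAt g u : ℝ) * c3a_L r u + c := by
    rw [e4_jensen hg hg0 hr, ← hT, ← hc]
    congr 1
    refine Finset.sum_subset (by rw [hZ]; exact Finset.subset_union_left) fun u hu hu' => ?_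
    have h1 : g u ≠ 0 := fun h => hu' ((hTm u).2 ⟨h, hZr u hu⟩)
    have h2 : analyticOrderNatAt g u = 0 := by
      by_contra h9
      exact h1 (apply_eq_zero_of_analyticOrderNatAt_ne_zero (f := g) h9)
    rw [h2]
    simp
  have h1 : (s : ℝ) * ∑ j ∈ S, count1 (fun z => form (h j) (Y z)) r =
      ∑ u ∈ Z, ((s * {j | j ∈ S ∧ form (h j) (Y u) = 0}.ncard : ℕ) : ℝ) * c3a_L r u := by
    rw [Finset.sum_congr rfl hcount, Finset.sum_comm, Finset.mul_sum]
    refine Finset.sum_congr rfl fun u _ => ?_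
    rw [← Finset.sum_filter, Finset.sum_const, nsmul_eq_mul]
    have h3 : {j | j ∈ S ∧ form (h j) (Y u) = 0}.ncard =
        (S.filter fun j => form (h j) (Y u) = 0).card := by
      rw [← Set.ncard_coe_finset]
      congr 1
      ext j
      simp
    rw [h3]
    push_cast
    ring
  have h2 : ∑ u ∈ Z, ((s * {j | j ∈ S ∧ form (h j) (Y u) = 0}.ncard : ℕ) : ℝ) * c3a_L r u ≤
      ∑ u ∈ Z, (analyticOrderNatAt g u : ℝ) * c3a_L r u := by
    refine Finset.sum_le_sum fun u hu => ?_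
    refine mul_le_mul_of_nonneg_right ?_ (c3a_L_nonneg hr (hZr u hu))
    exact_mod_cast hord u
  have h3 := g1_average_le hY h0 hg hg0 hA hr
  rw [havg] at h3
  rw [h1]
  linarith

private theorem g1_exp_ne {f : ℂ → ℂ} (hf : Continuous f) (h : ∃ z, f z ≠ 0) :
    ∃ z, f (Complex.exp z) ≠ 0 := by
  by_contra hcon
  push Not at hcon
  obtain ⟨z, hz⟩ := h
  apply hz
  have h2 : f = fun _ => 0 :=
    Continuous.ext_on (s := {(0 : ℂ)}ᶜ) (dense_compl_singleton (0 : ℂ))
      hf continuous_const (fun z hz => by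
        have := hcon (Complex.log z)
        rwa [Complex.exp_log hz] at this)
  exact congrFun h2 z

/-- The criterion, for one curve. -/
theorem const_of_section {m d N w b s : ℕ} (hw : 2 ≤ w)
    {h : Fin N → Mon m d → ℂ} {S : Finset (Fin N)}
    {Y : ℂ → Fin (m + 1) → ℂ} (hY : Differentiable ℂ Y) (h0 : ∀ z, Y z ≠ 0)
    (hne : ∀ j ∈ S, ∃ z, form (h j) (Y z) ≠ 0)
    {g : ℂ → ℂ} (hg : Differentiable ℂ g) (hg0 : ∃ z, g z ≠ 0)
    {A : ℝ} (hA : ∀ z, ‖g z‖ ≤ A * ‖Y z‖ ^ b)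
    (hord : ∀ z, s * {j | j ∈ S ∧ form (h j) (Y z) = 0}.ncard ≤ analyticOrderNatAt g z)
    (hnum : w * b < (w - 1) * (s * (S.card * d)))
    (hsmt : ∃ (C : ℝ) (E : Set ℝ), 0 ≤ C ∧ volume E < ⊤ ∧ ∀ r : ℝ, 1 ≤ r → r ∉ E →
      (1 - 1 / (w : ℝ)) * S.card * d * height (fun z => Y (Complex.exp z)) r ≤
        (∑ j ∈ S, open Classical in
          if ∃ z, form (h j) (Y (Complex.exp z)) ≠ 0 then
            count1 (fun z => form (h j) (Y (Complex.exp z))) r else 0) +
        C * (Real.log r + Real.posLog (height (fun z => Y (Complex.exp z)) r) + 1)) :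
    IsConst Y := by
  classical
  by_contra hnc
  have hYe : Differentiable ℂ fun z => Y (Complex.exp z) := hY.comp Complex.differentiable_exp
  have hge : Differentiable ℂ fun z => g (Complex.exp z) := hg.comp Complex.differentiable_exp
  have hne' : ∀ j ∈ S, ∃ z, form (h j) (Y (Complex.exp z)) ≠ 0 := fun j hj =>
    g1_exp_ne (f := fun z => form (h j) (Y z)) (form_differentiable hY (h j)).continuous (hne j hj)
  obtain ⟨C, E, hC, hE, hsmt⟩ := hsmt
  obtain ⟨c, C₁, hc, hgrow⟩ := height_exp hY h0 hnc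
  obtain ⟨C₂, hcomp⟩ := section_count (b := b) (s := s) hYe (fun z => h0 _) hne' hge
    (g1_exp_ne hg.continuous hg0) (fun z => hA (Complex.exp z)) (by
      intro z
      refine (hord (Complex.exp z)).trans (le_of_eq ?_)
      unfold analyticOrderNatAt
      rw [← order_exp hg z])
  have hw0 : (0 : ℝ) < w := by
    have : 0 < w := by omega
    exact_mod_cast this
  have hnum' : (w : ℝ) * b < ((w : ℝ) - 1) * (s * (S.card * d)) := by
    have h1 : ((w - 1 : ℕ) : ℝ) = (w : ℝ) - 1 := by rw [Nat.cast_sub (by omega), Nat.cast_one]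
    rw [← h1]
    exact_mod_cast hnum
  refine growth_contradiction (N := ((w : ℝ) - 1) * (s * (S.card * d)) - w * b)
    (C' := w * |C₂| + w * s * C) hc (sub_pos.2 hnum') hgrow hE ?_
  intro r hr hrE
  have h1 := hsmt r hr hrE
  have h2 := hcomp r hr
  rw [Finset.sum_congr rfl fun j hj => if_pos (hne' j hj)] at h1
  obtain ⟨T, hT⟩ : ∃ T, T = height (fun z => Y (Complex.exp z)) r := ⟨_, rfl⟩
  obtain ⟨P, hP⟩ : ∃ P, P = ∑ j ∈ S, count1 (fun z => form (h j) (Y (Complex.exp z))) r :=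
    ⟨_, rfl⟩
  have hX : 0 ≤ Real.log r + Real.posLog T :=
    add_nonneg (Real.log_nonneg hr) Real.posLog_nonneg
  rw [← hT, ← hP] at h1
  rw [← hT, ← hP] at h2
  rw [← hT]
  have h3 : (w : ℝ) * ((1 - 1 / (w : ℝ)) * S.card * d * T) = (w - 1) * S.card * d * T := by
    field_simp
  have hs0 : (0 : ℝ) ≤ s := Nat.cast_nonneg s
  have h4 := mul_le_mul_of_nonneg_left h1 hw0.le
  rw [h3] at h4
  have h5 := mul_le_mul_of_nonneg_left h4 hs0
  have h6 := mul_le_mul_of_nonneg_left h2 hw0.le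
  have h7 : (w : ℝ) * C₂ ≤ w * |C₂| * (Real.log r + Real.posLog T + 1) := by
    have a1 : C₂ ≤ |C₂| := le_abs_self C₂
    have a2 : (w : ℝ) * C₂ ≤ w * |C₂| := mul_le_mul_of_nonneg_left a1 hw0.le
    have a3 : 0 ≤ (w : ℝ) * |C₂| := mul_nonneg hw0.le (abs_nonneg _)
    nlinarith
  calc (((w : ℝ) - 1) * (s * (S.card * d)) - w * b) * T =
        s * ((w - 1) * S.card * d * T) - w * (b * T) := by ring
    _ ≤ s * (w * (P + C * (Real.log r + Real.posLog T + 1))) - (w * (s * P) - w * C₂) := by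
        linarith
    _ = w * C₂ + w * s * C * (Real.log r + Real.posLog T + 1) := by ring
    _ ≤ w * |C₂| * (Real.log r + Real.posLog T + 1) +
        w * s * C * (Real.log r + Real.posLog T + 1) := by linarith
    _ = (w * |C₂| + w * s * C) * (Real.log r + Real.posLog T + 1) := by ring

end Pool.Agent.Lib.GGL.LD
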