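import Mathlib
import Pool.Agent.Lib.MP_8d161d_ag.Mg.G009
import Pool.Agent.Lib.MP_8d161d_ag.Mg.G017
import Pool.Agent.Lib.MP_8d161d_ag.LD.A5
import Pool.Agent.Lib.MP_8d161d_ag.Mg.G020

/-!
The main case of the Noetherian induction for the second main theorem.
-/

open Filter Topology MvPolynomial Module MeasureTheory

namespace Pool.Agent.Lib.GGL.LD

open VG SM

theorem sizes_w {v n q N : ℕ} (hv : 1 ≤ v) (hq : q = 24 * v ^ 2 * (Nat.clog 2 v + 6) * (n + 1))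
    (hN : LL v n ≤ N) : 1 ≤ q ∧ q + 2 * (n + 1) ≤ N := by
  have h1 : 1 ≤ v ^ 2 := Nat.one_le_pow _ _ hv
  have h2 : 1 * 6 ≤ v ^ 2 * (Nat.clog 2 v + 6) := Nat.mul_le_mul h1 (by omega)
  obtain ⟨x, hx⟩ : ∃ x, x = v ^ 2 * (Nat.clog 2 v + 6) := ⟨_, rfl⟩
  have hq' : q = 24 * (x * (n + 1)) := by rw [hq, hx]; ring
  have hL : LL v n = 25 * (x * (n + 1)) := by rw [LL, hx]; ring
  rw [← hx] at h2
  have h3 : 6 * (n + 1) ≤ x * (n + 1) := Nat.mul_le_mul_right _ (by omega)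
  rw [hL] at hN
  omega

/-- From the block estimates to the second main theorem. -/
theorem smt_of_blocks_w {M N N' v k t n q r₀ A B τ : ℕ} (hv : 2 ≤ v) (hk : k = 24 * v)
    (ht : t + 10 = k) (hq : q = 24 * v ^ 2 * (Nat.clog 2 v + 6) * (n + 1))
    (hN : LL v n ≤ N) (hN' : N = N' + 2 * (n + 1)) (hr₀ : 1 ≤ r₀)
    (hdeg : q * (2 * k * r₀) = A + B + τ)
    {c : (Fin q → Fin (2 * k * r₀ + 1)) →
      MvPolynomial ((Fin q × Fin (M + 1)) ⊕ (Fin (M + 1) ⊕ Fin (M + 1))) ℂ} {g : Fin q → ℕ}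
    (hg1 : ∑ j, g j = τ + 3 * (q * r₀)) (hg2 : t * (q * r₀) < ∑ j, g j)
    (hg3 : ∀ j, g j ≤ 2 * k * r₀)
    (p : Fin N → Fin (M + 1) → ℂ)
    {Y : ℂ → Fin (M + 1) → ℂ} (hY : Differentiable ℂ Y) (h0 : ∀ z, Y z ≠ 0)
    {w : (Fin (M + 1) → ℂ) × (Fin (M + 1) → ℂ)} (hw : w ∈ jets fun _ => Y)
    (hgood : ∀ p'' : Fin q → Fin (M + 1) → ℂ, ∀ y Z, (y, Z) ∈ jetc (fun _ => Y) →
      GoodL q g (fun j => p'' j ⬝ᵥ y) (fun j => p'' j ⬝ᵥ Z) (fun γ => eval (pt p'' y Z) (c γ)))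
    (hhom : ∀ (p' : Fin q → Fin (M + 1) → ℂ) (y Z : Fin (M + 1) → ℂ) (a b : ℂ),
        leadL g (fun j => p' j ⬝ᵥ (a • y)) (fun j => p' j ⬝ᵥ (b • Z))
          (fun γ => eval (pt p' (a • y) (b • Z)) (c γ)) = a ^ A * b ^ B *
        leadL g (fun j => p' j ⬝ᵥ y) (fun j => p' j ⬝ᵥ Z)
          (fun γ => eval (pt p' y Z) (c γ)))
    (e' : Fin N' ↪ Fin N) {a b : Fin (M + 1)}
    (hΛ : ∀ e : Fin q ↪ Fin N',
      leadL g (fun j => p (e' (e j)) ⬝ᵥ w.1) (fun j => p (e' (e j)) ⬝ᵥ w.2)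
          (fun γ => eval (pt (fun j => p (e' (e j))) w.1 w.2) (c γ)) ≠ 0 ∧
        (∀ j, p (e' (e j)) ⬝ᵥ w.1 ≠ 0) ∧ w.1 a * w.2 b - w.1 b * w.2 a ≠ 0 ∧
        (∀ i j, (∀ z, Y z i = 0) ∨
          (p (e' (e j)) ⬝ᵥ w.2) * w.1 i - w.2 i * (p (e' (e j)) ⬝ᵥ w.1) ≠ 0))
    {c₁ : ℝ} (hc₁ : 0 < c₁)
    (hnear : ∀ z, {j | ‖p j ⬝ᵥ Y z‖ < c₁ * ‖Y z‖}.ncard ≤ 2 * (n + 1)) :
    LD.SMT v p Y := by
  classical
  -- sizes
  obtain ⟨hq1, hqN'⟩ := sizes_w (by omega : 1 ≤ v) hq hN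
  have hqN : q ≤ N' := by omega
  obtain ⟨e₀⟩ : Nonempty (Fin q ↪ Fin N') :=
    ⟨Fin.castLEEmb hqN⟩
  -- the nontrivial hyperplanes
  have hnt : ∀ i : Fin N', ∃ z, p (e' i) ⬝ᵥ Y z ≠ 0 := by
    intro i
    obtain ⟨e, j, hej⟩ : ∃ (e : Fin q ↪ Fin N') (j : Fin q), e j = i := by
      have hj : (⟨0, by omega⟩ : Fin q) = ⟨0, by omega⟩ := rfl
      refine ⟨e₀.trans (Equiv.swap (e₀ ⟨0, by omega⟩) i).toEmbedding, ⟨0, by omega⟩, ?_⟩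
      simp
    by_contra hcon
    push Not at hcon
    obtain ⟨z, a', b', s', hw'⟩ := hw
    apply (hΛ e).2.1 j
    rw [hej]
    have h1 : w.1 = a' • Y z := by rw [hw']
    rw [h1, dotProduct_smul, hcon z, smul_zero]
  -- the block estimates
  have hblock : ∀ e : Fin q ↪ Fin N', ∃ C' : ℝ, ∀ r β : ℝ, 1 ≤ r → 0 ≤ β → (∀ z, ‖z‖ = r →
      (∀ i i', (∃ z', Y z' i ≠ 0) → (∃ z', Y z' i' ≠ 0) →
        ‖deriv Y z i / Y z i - deriv Y z i' / Y z i'‖ ≤ Real.exp β) ∧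
      ∀ i j, (∃ z', Y z' i ≠ 0) →
        ‖(p (e' (e j)) ⬝ᵥ deriv Y z) / (p (e' (e j)) ⬝ᵥ Y z) - deriv Y z i / Y z i‖ ≤
          Real.exp β) →
      ((τ : ℝ) - ((2 * ((2 * (n + 1)) * (2 * k * r₀)) : ℕ) : ℝ)) * height Y r ≤
        ∑ j, ((2 * k * r₀ - g j : ℕ) : ℝ) * count1 (fun z => p (e' (e j)) ⬝ᵥ Y z) r +
        C' * (β + 1) := by
    intro e
    obtain ⟨hne, hlw, hab, hminw⟩ := hΛ e
    obtain ⟨F, m, C, S, hF, hF0, hC, hS, hb⟩ := block_function (ν := 2 * (n + 1)) hq1 hdeg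
      (p := fun j => p (e' (e j))) hY h0 hw hgood (hhom _) hne hlw hminw hab hc₁ (by
        intro z
        refine le_trans ?_ (hnear z)
        rw [← Set.ncard_image_of_injective {j | ‖p (e' (e j)) ⬝ᵥ Y z‖ < c₁ * ‖Y z‖}
          (e.trans e').injective]
        apply Set.ncard_le_ncard _ (Set.toFinite _)
        rintro _ ⟨j, hj, rfl⟩
        exact hj)
    exact block_estimate g (fun j => p (e' (e j))) hY h0 hF hF0 (fun j => hnt (e j)) hC hS hb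
  choose C' hC' using hblock
  obtain ⟨C₂, E, hC₂, hE, hlld⟩ := curve_logDeriv hY h0 p
  obtain ⟨C₃, hC₃⟩ : ∃ C₃ : ℝ, C₃ = ∑ e : Fin q ↪ Fin N', |C' e| := ⟨_, rfl⟩
  have hC₃e : ∀ e, C' e ≤ C₃ := fun e => by
    rw [hC₃]
    exact (le_abs_self _).trans (Finset.single_le_sum (f := fun e => |C' e|)
      (fun e _ => abs_nonneg _) (Finset.mem_univ e))
  have hC₃0 : 0 ≤ C₃ := by rw [hC₃]; exact Finset.sum_nonneg fun e _ => abs_nonneg _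
  refine ⟨N * (C₃ * (C₂ + 1)), E, hE, ?_⟩
  intro r hr hrE
  obtain ⟨β, hβ⟩ : ∃ β : ℝ, β = C₂ * (Real.log r + Real.posLog (height Y r) + 1) := ⟨_, rfl⟩
  have hX : 0 ≤ Real.log r + Real.posLog (height Y r) := 
    add_nonneg (Real.log_nonneg hr) Real.posLog_nonneg
  have hβ0 : 0 ≤ β := by rw [hβ]; positivity
  -- the sum over the good hyperplanes
  obtain ⟨x, hx⟩ : ∃ x : Fin N' → ℝ, x = fun i => count1 (fun z => p (e' i) ⬝ᵥ Y z) r := ⟨_, rfl⟩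
  have hx0 : ∀ i, 0 ≤ x i := fun i => by rw [hx]; exact count1_nonneg _ hr
  have hstep : ∀ e : Fin q ↪ Fin N',
      ((τ : ℝ) - ((2 * ((2 * (n + 1)) * (2 * k * r₀)) : ℕ) : ℝ)) * height Y r -
        C₃ * (β + 1) ≤ ∑ j, ((2 * k * r₀ - g j : ℕ) : ℝ) * x (e j) := by
    intro e
    have h1 := hC' e r β hr hβ0 (by
      intro z hz
      obtain ⟨h2, h3⟩ := hlld r hr hrE z hz
      rw [← hβ] at h2 h3
      exact ⟨h2, fun i j hi => h3 i _ hi (hnt (e j))⟩)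
    have h2 : C' e * (β + 1) ≤ C₃ * (β + 1) := by
      have := hC₃e e
      gcongr
    rw [hx]
    linarith
  have havg := average_shifts hq1 hqN _ x hstep
  have hsum : ∑ j, ((2 * k * r₀ - g j : ℕ) : ℝ) =
      ((q * (2 * k * r₀) : ℕ) : ℝ) - ((∑ j, g j : ℕ) : ℝ) := by
    have h1 : ∀ j, ((2 * k * r₀ - g j : ℕ) : ℝ) = ((2 * k * r₀ : ℕ) : ℝ) - (g j : ℝ) := fun j =>
      Nat.cast_sub (hg3 j)
    rw [Finset.sum_congr rfl fun j _ => h1 j, Finset.sum_sub_distrib]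
    simp
  rw [hsum] at havg
  have hs2 : ∑ j, g j ≤ q * (2 * k * r₀) := by
    have := Finset.sum_le_sum fun j (_ : j ∈ (Finset.univ : Finset (Fin q))) => hg3 j
    simpa using this
  have hfin := final_numbers_w hv hk ht hq hN hN' hr₀ hg1 hg2 hs2 (T := height Y r) (P := ∑ i, x i)
    (S := C₃ * (β + 1)) (Finset.sum_nonneg fun i _ => hx0 i) (by positivity) havg
  refine hfin.trans ?_
  have h3 : ∑ i, x i ≤ ∑ j, (if ∃ z, p j ⬝ᵥ Y z ≠ 0 then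
      count1 (fun z => p j ⬝ᵥ Y z) r else 0) := by
    have h4 : ∀ i, x i = if ∃ z, p (e' i) ⬝ᵥ Y z ≠ 0 then
        count1 (fun z => p (e' i) ⬝ᵥ Y z) r else 0 := by
      intro i
      rw [if_pos (hnt i), hx]
    rw [Finset.sum_congr rfl fun i _ => h4 i]
    have h5 : ∀ j, 0 ≤ (if ∃ z, p j ⬝ᵥ Y z ≠ 0 then
        count1 (fun z => p j ⬝ᵥ Y z) r else 0) := by
      intro j
      split_ifs
      · exact count1_nonneg _ hr
      · exact le_rfl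
    rw [← Finset.sum_map Finset.univ e' (fun j => if ∃ z, p j ⬝ᵥ Y z ≠ 0 then
        count1 (fun z => p j ⬝ᵥ Y z) r else 0)]
    exact Finset.sum_le_sum_of_subset_of_nonneg (Finset.subset_univ _) fun j _ _ => h5 j
  have h6 : (N : ℝ) * (C₃ * (β + 1)) ≤ N * (C₃ * (C₂ + 1)) *
      (Real.log r + Real.posLog (height Y r) + 1) := by
    rw [mul_assoc (N : ℝ), mul_assoc C₃]
    gcongr
    rw [hβ]
    nlinarith
  exact add_le_add h3 h6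

theorem smtF_main {n M N v : ℕ} (hv : 2 ≤ v) (hN : LL v n ≤ N)
    (𝔞 : Ideal (MvPolynomial (Fin (M + 1) ⊕ Fin (M + 1)) ℂ)) [𝔞.IsPrime]
    (htr : ∀ (L : Type) [Field L] [Algebra ℂ L] (y Z : Fin (M + 1) → L),
      (∀ G ∈ 𝔞, aeval (Sum.elim y Z) G = 0) → TrdegLE ℂ y (n + 1))
    (hdiff : ∀ f : MvPolynomial (Fin (M + 1)) ℂ, rename Sum.inl f ∈ 𝔞 → diffP f ∈ 𝔞)
    {a₀ b₀ : Fin (M + 1)} (hab : minorP ℂ a₀ b₀ ∉ 𝔞)
    (IH : ∀ 𝔟, 𝔞 < 𝔟 → SMTF v N 𝔟) : SMTF v N 𝔞 := by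
  classical
  obtain ⟨q, hq⟩ : ∃ q, q = 24 * v ^ 2 * (Nat.clog 2 v + 6) * (n + 1) := ⟨_, rfl⟩
  obtain ⟨k, hk⟩ : ∃ k, k = 24 * v := ⟨_, rfl⟩
  obtain ⟨t, ht⟩ : ∃ t, t + 10 = k := ⟨k - 10, by omega⟩
  obtain ⟨hq1, hqN⟩ := sizes_w (by omega : 1 ≤ v) hq hN
  obtain ⟨N', hN'⟩ : ∃ N', N = N' + 2 * (n + 1) := by
    refine ⟨N - 2 * (n + 1), ?_⟩
    omega
  obtain ⟨htrall, r₀, A, B, τ, c, g, Λ, hr₀, hdeg, hg1, hg2, hg3, hgood, hhom, ⟨m, hm⟩, hΛ⟩ :=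
    exists_lambda_t (n := n) (k := k) (t := t) (by omega) (by omega) 𝔞 htr hdiff hab hq1
      (count_w (by omega) hk ht hq)
  obtain ⟨Λ', hΛ'⟩ : ∃ Λ' : MvPolynomial (Fin q × Fin (M + 1))
    (MvPolynomial (Fin (M + 1) ⊕ Fin (M + 1)) ℂ), Λ' = sumAlgEquiv ℂ _ _ Λ := ⟨_, rfl⟩
  rw [← hΛ'] at hm
  obtain ⟨𝔟, h𝔟⟩ : ∃ 𝔟, 𝔟 = 𝔞 ⊔ Ideal.span (Set.range fun m => coeff m Λ') := ⟨_, rfl⟩
  have hlt : 𝔞 < 𝔟 := by
    rw [h𝔟]
    refine lt_of_le_of_ne le_sup_left ?_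
    intro h
    apply hm
    rw [h]
    exact Ideal.mem_sup_right (Ideal.subset_span ⟨m, rfl⟩)
  obtain ⟨Θ₁, hΘ₁, h1⟩ := IH 𝔟 hlt
  obtain ⟨Θ₂, hΘ₂, h2⟩ := good_blocks (M := M) (N := N) (N' := N') (q := q) (D := 2 * (n + 1))
    (by omega) 𝔞 htrall Λ
  obtain ⟨Θ₃, hΘ₃, h3⟩ := near_count (M := M) (N := N) (D := 2 * (n + 1)) 𝔞 htrall
  refine ⟨Θ₁ * Θ₂ * Θ₃, mul_ne_zero (mul_ne_zero hΘ₁ hΘ₂) hΘ₃, ?_⟩
  intro p hp Y hY h0 hnc hjets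
  rw [map_mul, map_mul] at hp
  by_cases hall : ∀ w ∈ jets fun _ => Y, ∀ m, eval (Sum.elim w.1 w.2) (coeff m Λ') = 0
  · refine h1 p (left_ne_zero_of_mul (left_ne_zero_of_mul hp)) Y hY h0 hnc (fun w hw => ?_)
    rw [h𝔟]
    apply zero_sup (hjets w hw)
    rintro _ ⟨m, rfl⟩
    exact hall w hw m
  · push Not at hall
    obtain ⟨w, hw, m', hm'⟩ := hall
    obtain ⟨e', he'⟩ := h2 p (right_ne_zero_of_mul (left_ne_zero_of_mul hp)) (Sum.elim w.1 w.2)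
      (hjets w hw) ⟨m', by rw [← hΛ']; exact hm'⟩
    obtain ⟨c₁, hc₁, hnear⟩ := h3 p (right_ne_zero_of_mul hp) Y hY h0 hjets
    have hrel : ∀ y Z : Fin (M + 1) → ℂ, (y, Z) ∈ jetc (fun _ => Y) →
        ∀ G ∈ 𝔞, eval (Sum.elim y Z) G = 0 := by
      intro y Z hyZ G hG
      have := rel_on_closure (K := ℂ) (G := G) (fun w' hw' => hjets w' hw' G hG) y Z
        (subset_closure hyZ)
      exact this
    have hzero : ∀ i, (X (Sum.inl i) : MvPolynomial (Fin (M + 1) ⊕ Fin (M + 1)) ℂ) ∈ 𝔞 →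
        ∀ z, Y z i = 0 := by
      intro i hi z
      have h6 := hjets (Y z, deriv Y z) ⟨z, 1, 1, 0, by simp⟩ _ hi
      rwa [eval_X, Sum.elim_inl] at h6
    refine smt_of_blocks_w hv hk ht hq hN hN' hr₀ hdeg hg1 hg2 hg3 p hY h0 hw
      (fun p'' y Z hyZ => hgood y Z (hrel y Z hyZ) p'') hhom e' (a := a₀) (b := b₀) ?_ hc₁ hnear
    intro e
    obtain ⟨g1, g2, g3, g4⟩ := hΛ (fun j => p (e' (e j))) w.1 w.2 (he' e)
    refine ⟨g1, g2, g3, ?_⟩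
    intro i j
    rcases g4 i j with h5 | h5
    · exact Or.inl (hzero i h5)
    · exact Or.inr h5

theorem smtF_ideal {n M N v : ℕ} (hv : 2 ≤ v) (hN : LL v n ≤ N)
    (𝔞₀ : Ideal (MvPolynomial (Fin (M + 1) ⊕ Fin (M + 1)) ℂ))
    (htr : ∀ (L : Type) [Field L] [Algebra ℂ L] (y Z : Fin (M + 1) → L),
      (∀ G ∈ 𝔞₀, aeval (Sum.elim y Z) G = 0) → TrdegLE ℂ y (n + 1)) :
    ∀ 𝔞, 𝔞₀ ≤ 𝔞 → SMTF v N 𝔞 := by
  intro 𝔞
  induction 𝔞 using WellFoundedGT.induction with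
  | ind 𝔞 IH =>
    intro h𝔞
    have IH' : ∀ 𝔟, 𝔞 < 𝔟 → SMTF v N 𝔟 := fun 𝔟 hlt => IH 𝔟 hlt (h𝔞.trans hlt.le)
    by_cases htop : 𝔞 = ⊤
    · refine ⟨1, one_ne_zero, ?_⟩
      intro p hp Y hY h0 hnc hjets
      exfalso
      have h1 := hjets (0, 0) ⟨0, 0, 0, 0, by simp⟩ 1 (by rw [htop]; trivial)
      rw [map_one] at h1
      exact one_ne_zero h1
    by_cases hprime : 𝔞.IsPrime
    swap
    · rw [Ideal.isPrime_iff] at hprime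
      push Not at hprime
      obtain ⟨f, g, hfg, hf, hg⟩ := hprime htop
      apply smtF_split hfg
      · apply IH'
        refine lt_of_le_of_ne le_sup_left ?_
        intro h
        apply hf
        rw [h]
        exact Ideal.mem_sup_right (Ideal.subset_span rfl)
      · apply IH'
        refine lt_of_le_of_ne le_sup_left ?_
        intro h
        apply hg
        rw [h]
        exact Ideal.mem_sup_right (Ideal.subset_span rfl)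
    by_cases hdiff : ∀ f : MvPolynomial (Fin (M + 1)) ℂ, rename Sum.inl f ∈ 𝔞 → diffP f ∈ 𝔞
    swap
    · push Not at hdiff
      obtain ⟨f, hf, hf'⟩ := hdiff
      apply smtF_diff hf
      apply IH'
      refine lt_of_le_of_ne le_sup_left ?_
      intro h
      apply hf'
      rw [h]
      exact Ideal.mem_sup_right (Ideal.subset_span rfl)
    by_cases hmin : ∀ a b, minorP ℂ a b ∈ 𝔞
    · exact smtF_of_minors hmin
    push Not at hmin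
    obtain ⟨a₀, b₀, hab⟩ := hmin
    exact smtF_main hv hN 𝔞 (fun L _ _ y Z h => htr L y Z (fun G hG => h G (h𝔞 hG)))
      hdiff hab IH'

/-- The second main theorem with truncation level one for general hyperplanes. -/
theorem general_smt_w {n M N v : ℕ} (hv : 2 ≤ v) (hN : LL v n ≤ N)
    (I : Ideal (MvPolynomial (Fin (M + 1)) ℂ))
    (hI : Algebra.trdeg ℂ (MvPolynomial (Fin (M + 1)) ℂ ⧸ I) ≤ (n + 1 : ℕ)) :
    ∃ Θ : MvPolynomial (Fin N × Fin (M + 1)) ℂ, Θ ≠ 0 ∧ ∀ p : Fin N → Fin (M + 1) → ℂ,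
      eval (fun x : Fin N × Fin (M + 1) => p x.1 x.2) Θ ≠ 0 →
      ∀ Y : ℂ → Fin (M + 1) → ℂ, Differentiable ℂ Y → (∀ z, Y z ≠ 0) → ¬ IsConst Y →
        (∀ z (a : ℂ), ∀ G ∈ I, eval (a • Y z) G = 0) → LD.SMT v p Y := by
  obtain ⟨T, hT⟩ : ∃ T : Set (MvPolynomial (Fin (M + 1) ⊕ Fin (M + 1)) ℂ),
    T = {H | ∃ G ∈ I, H = rename Sum.inl G} := ⟨_, rfl⟩
  obtain ⟨Θ, hΘ, h1⟩ := smtF_ideal hv hN (Ideal.span T) (by
    intro L _ _ y Z h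
    apply trdegLE_of_quotient I hI
    intro G hG
    have h2 := h (rename Sum.inl G) (Ideal.subset_span (by rw [hT]; exact ⟨G, hG, rfl⟩))
    rw [aeval_rename, Sum.elim_comp_inl] at h2
    exact h2) (Ideal.span T) le_rfl
  refine ⟨Θ, hΘ, ?_⟩
  intro p hp Y hY h0 hnc hYI
  refine h1 p hp Y hY h0 hnc ?_
  rintro w ⟨z, a, b, s, rfl⟩
  have h3 : Ideal.span T ≤ RingHom.ker (eval (Sum.elim (a • Y z)
      (b • (deriv Y z + s • Y z)))) := by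
    rw [Ideal.span_le, hT]
    rintro _ ⟨G, hG, rfl⟩
    show eval _ (rename Sum.inl G) = 0
    rw [eval_rename, Sum.elim_comp_inl]
    exact hYI z a G hG
  intro G hG
  exact h3 hG

end Pool.Agent.Lib.GGL.LD
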