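import Mathlib
import Pool.Agent.Lib.MP_8d161d_ag.LD.H4

/-!
The second main theorem for all large subfamilies.
-/

open Filter Topology MvPolynomial Module MeasureTheory

namespace Pool.Agent.Lib.GGL.LD

open SM

private theorem s1_sum {N : ℕ} (S : Finset (Fin N)) (g : Fin N → ℝ) :
    ∑ j : Fin S.card, g (S.orderEmbOfFin rfl j) = ∑ j ∈ S, g j := by
  calc ∑ j : Fin S.card, g (S.orderEmbOfFin rfl j)
      = ∑ j ∈ Finset.univ.map (S.orderEmbOfFin rfl).toEmbedding, g j := by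
        rw [Finset.sum_map]
        rfl
    _ = ∑ j ∈ S, g j := by rw [Finset.map_orderEmbOfFin_univ]

/-- The second main theorem for all subfamilies with at least `LL w n` members. -/
theorem smt_sub {n M N w : ℕ} (hw : 2 ≤ w)
    (I : Ideal (MvPolynomial (Fin (M + 1)) ℂ))
    (hI : Algebra.trdeg ℂ (MvPolynomial (Fin (M + 1)) ℂ ⧸ I) ≤ (n + 1 : ℕ)) :
    ∃ Θ : MvPolynomial (Fin N × Fin (M + 1)) ℂ, Θ ≠ 0 ∧ ∀ p : Fin N → Fin (M + 1) → ℂ,
      eval (fun x : Fin N × Fin (M + 1) => p x.1 x.2) Θ ≠ 0 →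
      ∀ Y : ℂ → Fin (M + 1) → ℂ, Differentiable ℂ Y → (∀ z, Y z ≠ 0) → ¬ IsConst Y →
        (∀ z (a : ℂ), ∀ G ∈ I, eval (a • Y z) G = 0) →
        ∃ (C : ℝ) (E : Set ℝ), 0 ≤ C ∧ volume E < ⊤ ∧ ∀ r : ℝ, 1 ≤ r → r ∉ E →
          ∀ S : Finset (Fin N), LL w n ≤ S.card →
            (1 - 1 / (w : ℝ)) * S.card * height Y r ≤
              (∑ j ∈ S, open Classical in
                if ∃ z, p j ⬝ᵥ Y z ≠ 0 then count1 (fun z => p j ⬝ᵥ Y z) r else 0) +
              C * (Real.log r + Real.posLog (height Y r) + 1) := by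
  classical
  have h := fun S : {S : Finset (Fin N) // LL w n ≤ S.card} =>
    general_smt_w (N := S.1.card) hw S.2 I hI
  choose Θ hΘ h1 using h
  obtain ⟨e, he⟩ : ∃ e : (S : {S : Finset (Fin N) // LL w n ≤ S.card}) →
      Fin S.1.card × Fin (M + 1) → Fin N × Fin (M + 1),
      e = fun S x => (S.1.orderEmbOfFin rfl x.1, x.2) := ⟨_, rfl⟩
  have hei : ∀ S, Function.Injective (e S) := by
    intro S x y hxy
    rw [he] at hxy
    simp only [Prod.mk.injEq] at hxy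
    exact Prod.ext ((S.1.orderEmbOfFin rfl).injective hxy.1) hxy.2
  refine ⟨∏ S, rename (e S) (Θ S), Finset.prod_ne_zero_iff.2 fun S _ h0 =>
    hΘ S (rename_injective _ (hei S) (by rw [h0, map_zero])), ?_⟩
  intro p hp Y hY h0 hnc hYI
  rw [map_prod, Finset.prod_ne_zero_iff] at hp
  have h2 : ∀ S : {S : Finset (Fin N) // LL w n ≤ S.card},
      LD.SMT w (fun j => p (S.1.orderEmbOfFin rfl j)) Y := by
    intro S
    refine h1 S _ ?_ Y hY h0 hnc hYI
    have h3 := hp S (Finset.mem_univ _)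
    rw [eval_rename] at h3
    rw [he] at h3
    exact h3
  choose C E hE h3 using h2
  have hC : ∀ S, C S ≤ ∑ S, |C S| := fun S => (le_abs_self _).trans
    (Finset.single_le_sum (f := fun S => |C S|) (fun S _ => abs_nonneg (C S)) (Finset.mem_univ S))
  refine ⟨∑ S, |C S|, ⋃ S, E S, Finset.sum_nonneg fun S _ => abs_nonneg _,
    (measure_iUnion_fintype_le _ _).trans_lt (ENNReal.sum_lt_top.2 fun S _ => hE S), ?_⟩
  intro r hr hrE S hS
  have h4 := h3 ⟨S, hS⟩ r hr (fun h5 => hrE (Set.mem_iUnion.2 ⟨⟨S, hS⟩, h5⟩))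
  have h5 := s1_sum S (fun j => if ∃ z, p j ⬝ᵥ Y z ≠ 0 then
    count1 (fun z => p j ⬝ᵥ Y z) r else 0)
  have h6 : 0 ≤ Real.log r + Real.posLog (height Y r) + 1 := by
    have h7 := Real.log_nonneg hr
    have h8 := Real.posLog_nonneg (x := height Y r)
    linarith
  have h7 := mul_le_mul_of_nonneg_right (hC ⟨S, hS⟩) h6
  refine h4.trans (add_le_add (le_of_eq ?_) h7)
  rw [← h5]

end Pool.Agent.Lib.GGL.LD
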