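import Mathlib
import Pool.Agent.Lib.MP_8d161d_ag.CV.V1
import Pool.Agent.Lib.MP_8d161d_ag.LD.S1

/-!
The Veronese map on a projective variety, and the second main theorem for forms of degree `d`.
-/

open Filter Topology MvPolynomial Module MeasureTheory

namespace Pool.Agent.Lib.GGL.LD

open SM CV

/-- The ideal of the image of the zero set of `I` under the Veronese map. -/
noncomputable def verJ {m d M : ℕ} (e : Mon m d ≃ Fin (M + 1))
    (I : Ideal (MvPolynomial (Fin (m + 1)) ℂ)) : Ideal (MvPolynomial (Fin (M + 1)) ℂ) :=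
  I.comap (aeval (ver e (X : Fin (m + 1) → MvPolynomial (Fin (m + 1)) ℂ)) :
    MvPolynomial (Fin (M + 1)) ℂ →ₐ[ℂ] MvPolynomial (Fin (m + 1)) ℂ)

theorem v1_eval {m d M : ℕ} (e : Mon m d ≃ Fin (M + 1)) (y : Fin (m + 1) → ℂ)
    (H : MvPolynomial (Fin (M + 1)) ℂ) :
    eval y ((aeval (ver e (X : Fin (m + 1) → MvPolynomial (Fin (m + 1)) ℂ)) :
      MvPolynomial (Fin (M + 1)) ℂ →ₐ[ℂ] MvPolynomial (Fin (m + 1)) ℂ) H) = eval (ver e y) H := by
  induction H using MvPolynomial.induction_on with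
  | C a => simp
  | add p q hp hq => simp only [map_add, hp, hq]
  | mul_X p i hp =>
    rw [map_mul, map_mul, map_mul, hp, aeval_X, eval_X]
    congr 1
    simp [ver]

theorem verJ_eval {m d M : ℕ} (hd : 1 ≤ d) (e : Mon m d ≃ Fin (M + 1))
    {I : Ideal (MvPolynomial (Fin (m + 1)) ℂ)} {y : Fin (m + 1) → ℂ}
    (hy : ∀ a : ℂ, ∀ G ∈ I, eval (a • y) G = 0) {G : MvPolynomial (Fin (M + 1)) ℂ}
    (hG : G ∈ verJ e I) (a : ℂ) : eval (a • ver e y) G = 0 := by
  obtain ⟨b, hb⟩ := IsAlgClosed.exists_pow_nat_eq a (n := d) (by omega)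
  rw [← hb, ← ver_smul, ← v1_eval]
  exact hy b _ hG

theorem verJ_trdeg {n m d M : ℕ} (e : Mon m d ≃ Fin (M + 1))
    (I : Ideal (MvPolynomial (Fin (m + 1)) ℂ))
    (hI : Algebra.trdeg ℂ (MvPolynomial (Fin (m + 1)) ℂ ⧸ I) ≤ (n + 1 : ℕ)) :
    Algebra.trdeg ℂ (MvPolynomial (Fin (M + 1)) ℂ ⧸ verJ e I) ≤ (n + 1 : ℕ) := by
  refine (trdeg_le_of_injective (Ideal.quotientMapₐ I
    (aeval (ver e (X : Fin (m + 1) → MvPolynomial (Fin (m + 1)) ℂ)) :
    MvPolynomial (Fin (M + 1)) ℂ →ₐ[ℂ] MvPolynomial (Fin (m + 1)) ℂ)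
    (le_refl (verJ e I))) ?_).trans hI
  exact Ideal.quotientMap_injective

theorem verJ_homog {m d M : ℕ} (hd : 1 ≤ d) (e : Mon m d ≃ Fin (M + 1))
    {I : Ideal (MvPolynomial (Fin (m + 1)) ℂ)}
    (hom : ∀ g ∈ I, ∀ k, homogeneousComponent k g ∈ I) :
    ∀ g ∈ verJ e I, ∀ k, homogeneousComponent k g ∈ verJ e I := by
  intro g hg k
  obtain ⟨φ, hφ⟩ : ∃ φ : MvPolynomial (Fin (M + 1)) ℂ →ₐ[ℂ] MvPolynomial (Fin (m + 1)) ℂ,
    φ = aeval (ver e (X : Fin (m + 1) → MvPolynomial (Fin (m + 1)) ℂ)) := ⟨_, rfl⟩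
  have hg' : φ g ∈ I := by rw [hφ]; exact hg
  show (aeval (ver e (X : Fin (m + 1) → MvPolynomial (Fin (m + 1)) ℂ)) :
    MvPolynomial (Fin (M + 1)) ℂ →ₐ[ℂ] MvPolynomial (Fin (m + 1)) ℂ) _ ∈ I
  rw [← hφ]
  have hcomp : ∀ j, (φ (homogeneousComponent j g)).IsHomogeneous (d * j) := by
    intro j
    rw [hφ]
    exact (homogeneousComponent_isHomogeneous j g).aeval _ (fun i => ver_X_homog e i)
  have h2 : ∑ j ∈ Finset.range (g.totalDegree + 1), φ (homogeneousComponent j g) = φ g := by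
    rw [← map_sum, sum_homogeneousComponent]
  by_cases hk : k ∈ Finset.range (g.totalDegree + 1)
  · have h3 := congrArg (homogeneousComponent (d * k)) h2
    rw [map_sum, Finset.sum_eq_single k] at h3
    · rw [homogeneousComponent_of_mem (hcomp k), if_pos rfl] at h3
      rw [h3]
      exact hom _ hg' _
    · intro j _ hj
      have h4 : homogeneousComponent (d * k) (φ (homogeneousComponent j g)) =
          if d * k = d * j then φ (homogeneousComponent j g) else 0 :=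
        homogeneousComponent_of_mem (hcomp j)
      rw [h4, if_neg]
      intro h
      exact hj (Nat.eq_of_mul_eq_mul_left (by omega) h).symm
    · intro h
      exact absurd hk h
  · rw [Finset.mem_range, not_lt] at hk
    rw [homogeneousComponent_eq_zero k g (by omega), map_zero]
    exact I.zero_mem

/-- The second main theorem for forms of degree `d` and all large subfamilies. -/
theorem forms_sub {n m d N w : ℕ} (hd : 1 ≤ d) (hw : 2 ≤ w)
    (I : Ideal (MvPolynomial (Fin (m + 1)) ℂ))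
    (hI : Algebra.trdeg ℂ (MvPolynomial (Fin (m + 1)) ℂ ⧸ I) ≤ (n + 1 : ℕ)) :
    ∃ Θ : MvPolynomial (Fin N × Mon m d) ℂ, Θ ≠ 0 ∧ ∀ h : Fin N → Mon m d → ℂ,
      eval (fun x : Fin N × Mon m d => h x.1 x.2) Θ ≠ 0 →
      ∀ Y : ℂ → Fin (m + 1) → ℂ, Differentiable ℂ Y → (∀ z, Y z ≠ 0) → ¬ IsConst Y →
        (∀ z (a : ℂ), ∀ G ∈ I, eval (a • Y z) G = 0) →
        ∃ (C : ℝ) (E : Set ℝ), 0 ≤ C ∧ volume E < ⊤ ∧ ∀ r : ℝ, 1 ≤ r → r ∉ E →
          ∀ S : Finset (Fin N), LL w n ≤ S.card →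
            (1 - 1 / (w : ℝ)) * S.card * d * height Y r ≤
              (∑ j ∈ S, open Classical in
                if ∃ z, form (h j) (Y z) ≠ 0 then count1 (fun z => form (h j) (Y z)) r else 0) +
              C * (Real.log r + Real.posLog (height Y r) + 1) := by
  classical
  obtain ⟨M, ⟨e⟩⟩ := v1_equiv m d
  obtain ⟨Θ, hΘ, h⟩ := smt_sub (n := n) (M := M) (N := N) (w := w) hw (verJ e I)
    (verJ_trdeg e I hI)
  have hinj : Function.Injective (fun x : Fin N × Fin (M + 1) => (x.1, e.symm x.2)) := by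
    rintro ⟨x1, x2⟩ ⟨y1, y2⟩ h
    rw [Prod.mk.injEq] at h ⊢
    exact ⟨h.1, e.symm.injective h.2⟩
  refine ⟨rename (fun x : Fin N × Fin (M + 1) => (x.1, e.symm x.2)) Θ, ?_, ?_⟩
  · intro h0
    exact hΘ (rename_injective _ hinj (by rw [h0, map_zero]))
  intro p hp Y hY h0 hnc hYI
  have hV : Differentiable ℂ fun z => ver e (Y z) := by
    rw [differentiable_pi]
    intro i
    simp only [ver]
    exact Differentiable.fun_finsetProd fun l _ => ((differentiable_pi.1 hY) l).pow _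
  obtain ⟨C, E, hC, hE, hsm⟩ := h (fun j i => p j (e.symm i))
    (by rw [eval_rename] at hp; exact hp)
    (fun z => ver e (Y z)) hV (fun z => ver_ne e (h0 z)) (fun hc => hnc (ver_const hd e h0 hc))
    (fun z a G hG => verJ_eval hd e (hYI z) hG a)
  have hheight : ∀ r, height (fun z => ver e (Y z)) r = d * height Y r := by
    intro r
    unfold height
    have h1 : (fun z => Real.log ‖ver e (Y z)‖) = fun z => (d : ℝ) • Real.log ‖Y z‖ := by
      funext z
      rw [norm_ver, Real.log_pow, smul_eq_mul]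
    rw [h1, Real.circleAverage_fun_smul, smul_eq_mul]
  have hdR : (1 : ℝ) ≤ d := by exact_mod_cast hd
  have hld : 0 ≤ Real.log d := Real.log_nonneg hdR
  refine ⟨C * (1 + Real.log d), E, by positivity, hE, ?_⟩
  intro r hr hrE S hS
  have h1 := hsm r hr hrE S hS
  rw [hheight] at h1
  have hterm : (∑ j ∈ S, if ∃ z, (fun i => p j (e.symm i)) ⬝ᵥ ver e (Y z) ≠ 0 then
      count1 (fun z => (fun i => p j (e.symm i)) ⬝ᵥ ver e (Y z)) r else 0) =
      ∑ j ∈ S, if ∃ z, form (p j) (Y z) ≠ 0 then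
              count1 (fun z => form (p j) (Y z)) r else 0 := by
    refine Finset.sum_congr rfl fun j _ => ?_
    simp only [form_eq e]
  have h2 : C * (Real.log r + Real.posLog (d * height Y r) + 1) ≤
      C * (1 + Real.log d) * (Real.log r + Real.posLog (height Y r) + 1) := by
    have hx : 0 ≤ Real.log r := Real.log_nonneg hr
    have hy : 0 ≤ Real.posLog (height Y r) := Real.posLog_nonneg
    have hpl : Real.posLog (d * height Y r) ≤ Real.log d + Real.posLog (height Y r) := by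
      refine Real.posLog_mul.trans ?_
      rw [Real.posLog_eq_log (by rw [abs_of_nonneg (by linarith)]; exact hdR)]
    rw [mul_assoc]
    refine mul_le_mul_of_nonneg_left ?_ hC
    nlinarith [mul_nonneg hld hx, mul_nonneg hld hy]
  have h3 : (1 - 1 / (w : ℝ)) * S.card * d * height Y r =
      (1 - 1 / (w : ℝ)) * S.card * (d * height Y r) := by ring
  rw [h3]
  refine h1.trans (add_le_add ?_ h2)
  refine le_of_eq ?_
  rw [← hterm]

/-- At most `n` of the general forms vanish at a point of the zero set of `I`. -/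
theorem forms_card {n m d N : ℕ} (hd : 1 ≤ d)
    (I : Ideal (MvPolynomial (Fin (m + 1)) ℂ))
    (hom : ∀ g ∈ I, ∀ k, homogeneousComponent k g ∈ I)
    (hI : Algebra.trdeg ℂ (MvPolynomial (Fin (m + 1)) ℂ ⧸ I) ≤ (n + 1 : ℕ)) :
    ∃ Θ : MvPolynomial (Fin N × Mon m d) ℂ, Θ ≠ 0 ∧ ∀ h : Fin N → Mon m d → ℂ,
      eval (fun x : Fin N × Mon m d => h x.1 x.2) Θ ≠ 0 →
      ∀ y : Fin (m + 1) → ℂ, y ≠ 0 → (∀ G ∈ I, eval y G = 0) →
        {j | form (h j) y = 0}.ncard ≤ n := by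
  classical
  obtain ⟨M, ⟨e⟩⟩ := v1_equiv m d
  obtain ⟨Θ, hΘ, h⟩ := SM.card_through (n := n) (M := M) (N := N) (verJ e I)
    (verJ_homog hd e hom) (verJ_trdeg e I hI)
  have hinj : Function.Injective (fun x : Fin N × Fin (M + 1) => (x.1, e.symm x.2)) := by
    rintro ⟨x1, x2⟩ ⟨y1, y2⟩ h
    rw [Prod.mk.injEq] at h ⊢
    exact ⟨h.1, e.symm.injective h.2⟩
  refine ⟨rename (fun x : Fin N × Fin (M + 1) => (x.1, e.symm x.2)) Θ, ?_, ?_⟩
  · intro h0
    exact hΘ (rename_injective _ hinj (by rw [h0, map_zero]))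
  intro p hp y hy hyI
  have h1 := h (fun j i => p j (e.symm i)) (by rw [eval_rename] at hp; exact hp) (ver e y)
    (ver_ne e hy) (fun G hG => by rw [← v1_eval]; exact hyI _ hG)
  simp only [form_eq e]
  exact h1

end Pool.Agent.Lib.GGL.LD
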