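import Mathlib
import Pool.Agent.Lib.MP_8d161d_ag.Mg.G009
import Pool.Agent.Lib.MP_8d161d_ag.SM.W2
import Pool.Agent.Lib.MP_8d161d_ag.LD.V1

/-!
Entire curves that meet at least `22 n + 32` of finitely many general forms with multiplicity at
least two.
-/

open Filter Topology MvPolynomial Module

namespace Pool.Agent.Lib.GGL.LD

open CV VG

theorem ramified_sub {n M N : ℕ} (I : Ideal (MvPolynomial (Fin (M + 1)) ℂ))
    (hI : Algebra.trdeg ℂ (MvPolynomial (Fin (M + 1)) ℂ ⧸ I) ≤ (n + 1 : ℕ)) :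
    ∃ Θ : MvPolynomial (Fin N × Fin (M + 1)) ℂ, Θ ≠ 0 ∧ ∀ p : Fin N → Fin (M + 1) → ℂ,
      eval (fun x : Fin N × Fin (M + 1) => p x.1 x.2) Θ ≠ 0 →
      ∀ S : Finset (Fin N), 22 * n + 32 ≤ S.card →
      ∀ Y : ℂ → ℂ → Fin (M + 1) → ℂ, LiftFamily Y →
        (∀ z (a : ℂ), ∀ G ∈ I, eval (a • Y z z) G = 0) →
        (∀ j ∈ S, ∀ z₁, analyticOrderAt (fun z => p j ⬝ᵥ Y z₁ z) z₁ = 0 ∨
          (2 : ℕ∞) ≤ analyticOrderAt (fun z => p j ⬝ᵥ Y z₁ z) z₁) →
        ∀ z w, ∃ a : ℂ, a ≠ 0 ∧ Y z z = a • Y w w := by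
  classical
  have h := fun S : {S : Finset (Fin N) // 22 * n + 32 ≤ S.card} =>
    general_ideal (N := S.1.card) S.2 I hI
  choose Θ hΘ h1 using h
  obtain ⟨e, he⟩ : ∃ e : (S : {S : Finset (Fin N) // 22 * n + 32 ≤ S.card}) →
      Fin S.1.card × Fin (M + 1) → Fin N × Fin (M + 1),
      e = fun S x => (S.1.orderEmbOfFin rfl x.1, x.2) := ⟨_, rfl⟩
  have hei : ∀ S, Function.Injective (e S) := by
    intro S x y hxy
    rw [he] at hxy
    simp only [Prod.mk.injEq] at hxy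
    exact Prod.ext ((S.1.orderEmbOfFin rfl).injective hxy.1) hxy.2
  refine ⟨∏ S, rename (e S) (Θ S), Finset.prod_ne_zero_iff.2 fun S _ h0 =>
    hΘ S (rename_injective _ (hei S) (by rw [h0, map_zero])), ?_⟩
  intro p hp S hS Y hY hYI hord
  rw [map_prod, Finset.prod_ne_zero_iff] at hp
  refine h1 ⟨S, hS⟩ (fun i => p (S.orderEmbOfFin rfl i)) ?_ Y hY hYI fun i z₁ =>
    hord _ (S.orderEmbOfFin_mem rfl i) z₁
  have h3 := hp ⟨S, hS⟩ (Finset.mem_univ _)
  rw [eval_rename, he] at h3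
  exact h3

/-- A curve that meets at least `22 n + 32` of the general forms of degree `d` with multiplicity at
least two is constant. -/
theorem ramified_forms {n m d N : ℕ} (hd : 1 ≤ d) (I : Ideal (MvPolynomial (Fin (m + 1)) ℂ))
    (hI : Algebra.trdeg ℂ (MvPolynomial (Fin (m + 1)) ℂ ⧸ I) ≤ (n + 1 : ℕ)) :
    ∃ Θ : MvPolynomial (Fin N × Mon m d) ℂ, Θ ≠ 0 ∧ ∀ p : Fin N → Mon m d → ℂ,
      eval (fun x : Fin N × Mon m d => p x.1 x.2) Θ ≠ 0 →
      ∀ S : Finset (Fin N), 22 * n + 32 ≤ S.card →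
      ∀ Y : ℂ → Fin (m + 1) → ℂ, Differentiable ℂ Y → (∀ z, Y z ≠ 0) →
        (∀ z (a : ℂ), ∀ G ∈ I, eval (a • Y z) G = 0) →
        (∀ j ∈ S, ∀ z₁, analyticOrderAt (fun z => form (p j) (Y z)) z₁ = 0 ∨
          (2 : ℕ∞) ≤ analyticOrderAt (fun z => form (p j) (Y z)) z₁) → SM.IsConst Y := by
  obtain ⟨K, ⟨e⟩⟩ := v1_equiv m d
  obtain ⟨Θ, hΘ, hmain⟩ := ramified_sub (n := n) (N := N) (verJ e I) (verJ_trdeg e I hI)
  have hinj : Function.Injective (fun x : Fin N × Fin (K + 1) => (x.1, e.symm x.2)) := by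
    rintro ⟨x1, x2⟩ ⟨y1, y2⟩ h
    rw [Prod.mk.injEq] at h ⊢
    exact ⟨h.1, e.symm.injective h.2⟩
  refine ⟨rename (fun x : Fin N × Fin (K + 1) => (x.1, e.symm x.2)) Θ, ?_, ?_⟩
  · intro h0
    exact hΘ (rename_injective _ hinj (by rw [h0, map_zero]))
  intro p hp S hS Y hY h0 hYI hord
  rw [eval_rename] at hp
  have hver : ∀ z, AnalyticAt ℂ (fun z => ver e (Y z)) z := by
    intro z
    rw [analyticAt_pi_iff]
    intro i
    exact Finset.analyticAt_fun_prod _ fun l _ =>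
      ((analyticAt_pi_iff.mp (hY.analyticAt z)) l).pow _
  have hlf : LiftFamily fun _ z => ver e (Y z) :=
    ⟨hver, fun z => ver_ne e (h0 z), fun z₁ => Filter.Eventually.of_forall fun z =>
      ⟨fun _ => 1, analyticAt_const, one_ne_zero, Filter.Eventually.of_forall fun w => by
        rw [one_smul]⟩⟩
  refine ver_const hd e h0 fun z w => ?_
  obtain ⟨a, -, ha⟩ := hmain (fun j i => p j (e.symm i)) hp S hS _ hlf
    (fun z a G hG => verJ_eval hd e (hYI z) hG a) (fun j hj z₁ => by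
      have h1 := hord j hj z₁
      have h2 : (fun z => form (p j) (Y z)) =
          fun z => (fun i => p j (e.symm i)) ⬝ᵥ ver e (Y z) :=
        funext fun z => form_eq e (p j) (Y z)
      rw [h2] at h1
      exact h1) z w
  exact ⟨a, ha⟩

end Pool.Agent.Lib.GGL.LD
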